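import Pool.Agent.Lib.Pe04c55.Space

/-!
# Rademacher sums on the cube
-/

set_option autoImplicit false
open Filter Topology Set

namespace Pool.Agent.Lib.Pe04c55

lemma sg_beq (a b : Bool) : sg (a == b) = sg a * sg b := by
  cases a <;> cases b <;> simp [sg]

/-- Multiplication on the cube. -/
def cm {n : ℕ} (g θ : Fin n → Bool) : Fin n → Bool := fun i => g i == θ i

lemma cm_comm {n : ℕ} (g θ : Fin n → Bool) : cm g θ = cm θ g := by
  funext i
  simp only [cm]
  cases g i <;> cases θ i <;> rfl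

lemma cm_cm {n : ℕ} (g θ : Fin n → Bool) : cm g (cm g θ) = θ := by
  funext i
  simp only [cm]
  cases g i <;> cases θ i <;> rfl

lemma sg_cm {n : ℕ} (g θ : Fin n → Bool) (i : Fin n) : sg (cm g θ i) = sg (g i) * sg (θ i) :=
  sg_beq _ _

lemma sum_cm {n : ℕ} (g : Fin n → Bool) (F : (Fin n → Bool) → ℝ) :
    ∑ θ, F (cm g θ) = ∑ θ, F θ :=
  Equiv.sum_comp (Function.Involutive.toPerm (cm g) (cm_cm g)) F

/-- The sum of coordinates. -/
noncomputable def S {n : ℕ} (θ : Fin n → Bool) : ℝ := ∑ i, sg (θ i)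

lemma sum_cube_succ {n : ℕ} (F : ℝ → ℝ) :
    ∑ θ : Fin (n + 1) → Bool, F (S θ) = ∑ θ : Fin n → Bool, (F (1 + S θ) + F (-1 + S θ)) := by
  rw [← (Fin.consEquiv (fun _ : Fin (n + 1) => Bool)).sum_comp, Fintype.sum_prod_type,
    Fintype.sum_bool, ← Finset.sum_add_distrib]
  apply Finset.sum_congr rfl
  intro θ _
  simp [S, Fin.sum_univ_succ, Fin.consEquiv, sg]

lemma card_cube (n : ℕ) : ∑ _θ : Fin n → Bool, (1:ℝ) = 2 ^ n := by
  simp

lemma second_moment (n : ℕ) : ∑ θ : Fin n → Bool, (S θ) ^ 2 = n * 2 ^ n := by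
  induction n with
  | zero => simp [S]
  | succ n ih =>
    rw [sum_cube_succ (fun x => x ^ 2)]
    have h : ∀ θ : Fin n → Bool, (1 + S θ) ^ 2 + (-1 + S θ) ^ 2 = 2 * (S θ) ^ 2 + 2 * 1 := by
      intro θ; ring
    rw [Finset.sum_congr rfl (fun θ _ => h θ), Finset.sum_add_distrib, ← Finset.mul_sum,
      ← Finset.mul_sum, ih, card_cube]
    push_cast; ring

lemma fourth_moment (n : ℕ) : ∑ θ : Fin n → Bool, (S θ) ^ 4 ≤ 3 * n ^ 2 * 2 ^ n := by
  induction n with
  | zero => simp [S]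
  | succ n ih =>
    rw [sum_cube_succ (fun x => x ^ 4)]
    have h : ∀ θ : Fin n → Bool, (1 + S θ) ^ 4 + (-1 + S θ) ^ 4
        = 2 * (S θ) ^ 4 + 12 * (S θ) ^ 2 + 2 * 1 := by
      intro θ; ring
    rw [Finset.sum_congr rfl (fun θ _ => h θ), Finset.sum_add_distrib, Finset.sum_add_distrib,
      ← Finset.mul_sum, ← Finset.mul_sum, ← Finset.mul_sum, second_moment, card_cube]
    have h2 : (0:ℝ) < 2 ^ n := by positivity
    push_cast
    have e : 3 * ((n:ℝ) + 1) ^ 2 * 2 ^ (n + 1)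
        = 2 * (3 * n ^ 2 * 2 ^ n) + 12 * (n * 2 ^ n) + 6 * 2 ^ n := by ring
    rw [e]
    linarith

/-- Unnormalised first absolute moment. -/
noncomputable def kap (n : ℕ) : ℝ := ∑ θ : Fin n → Bool, |S θ|

lemma kap_nonneg (n : ℕ) : 0 ≤ kap n := Finset.sum_nonneg (fun _ _ => abs_nonneg _)

lemma kap_lower {n : ℕ} (hn : 0 < n) : Real.sqrt (3 * n) / 4 * 2 ^ n ≤ kap n := by
  set t : ℝ := Real.sqrt (3 * n) with ht
  have hn' : (0:ℝ) < n := by exact_mod_cast hn
  have ht0 : 0 < t := Real.sqrt_pos.2 (by positivity)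
  have ht2 : t ^ 2 = 3 * n := Real.sq_sqrt (by positivity)
  have hpt : ∀ s : ℝ, s ^ 2 / t - s ^ 4 / (4 * t ^ 3) ≤ |s| := by
    intro s
    have h1 : s ^ 2 = |s| ^ 2 := (sq_abs s).symm
    have h2 : s ^ 4 = |s| ^ 4 := by
      rw [show (4:ℕ) = 2 * 2 by norm_num, pow_mul, pow_mul, h1]
    rw [h1, h2]
    set u := |s| with hu
    have hu0 : 0 ≤ u := abs_nonneg s
    have h3 : u ^ 2 / t - u ^ 4 / (4 * t ^ 3) = u * (4 * t ^ 2 * u - u ^ 3) / (4 * t ^ 3) := by
      field_simp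
    rw [h3, div_le_iff₀ (by positivity)]
    apply mul_le_mul_of_nonneg_left _ hu0
    -- 4 t² u - u³ ≤ 4 t³
    nlinarith [mul_nonneg hu0 (sq_nonneg (u - t)), mul_nonneg ht0.le (sq_nonneg (u - t)),
      mul_nonneg ht0.le (sq_nonneg (2 * u - t)), sq_nonneg (u - 2 * t), pow_pos ht0 3,
      mul_nonneg hu0 (sq_nonneg (u - 2 * t)), mul_nonneg ht0.le (sq_nonneg (u - 2 * t))]
  calc t / 4 * 2 ^ n = (n * 2 ^ n) / t - (3 * n ^ 2 * 2 ^ n) / (4 * t ^ 3) := by
        field_simp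
        have : (n:ℝ) = t ^ 2 / 3 := by rw [ht2]; ring
        rw [this]; ring
    _ ≤ (∑ θ : Fin n → Bool, (S θ) ^ 2) / t - (∑ θ : Fin n → Bool, (S θ) ^ 4) / (4 * t ^ 3) := by
        rw [second_moment]
        have := fourth_moment n
        have h5 : (∑ θ : Fin n → Bool, (S θ) ^ 4) / (4 * t ^ 3)
            ≤ (3 * n ^ 2 * 2 ^ n) / (4 * t ^ 3) := div_le_div_of_nonneg_right this (by positivity)
        linarith
    _ = ∑ θ : Fin n → Bool, ((S θ) ^ 2 / t - (S θ) ^ 4 / (4 * t ^ 3)) := by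
        rw [Finset.sum_sub_distrib, Finset.sum_div, Finset.sum_div]
    _ ≤ kap n := Finset.sum_le_sum (fun θ _ => hpt (S θ))

lemma exists_kap_large (M : ℝ) (n₀ : ℕ) : ∃ n, n₀ ≤ n ∧ M * 2 ^ n < kap n := by
  obtain ⟨m, hm⟩ := exists_nat_gt (16 * M ^ 2 + 1)
  refine ⟨max n₀ (max m 1), le_max_left _ _, ?_⟩
  set n := max n₀ (max m 1) with hn
  have hn1 : 0 < n := lt_of_lt_of_le Nat.one_pos ((le_max_right m 1).trans (le_max_right _ _))
  have hnm : (m:ℝ) ≤ n := by
    exact_mod_cast (le_max_left m 1).trans (le_max_right n₀ _)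
  refine lt_of_lt_of_le ?_ (kap_lower hn1)
  apply mul_lt_mul_of_pos_right _ (by positivity)
  rw [lt_div_iff₀ (by norm_num)]
  apply Real.lt_sqrt_of_sq_lt
  nlinarith

lemma sum_sg_mul {n : ℕ} (i k : Fin n) :
    ∑ θ : Fin n → Bool, sg (θ i) * sg (θ k) = if i = k then 2 ^ n else 0 := by
  by_cases h : i = k
  · subst h
    rw [if_pos rfl, ← card_cube]
    exact Finset.sum_congr rfl (fun θ _ => sg_sq _)
  · rw [if_neg h]
    -- flip the `i`-th coordinate
    have hinv : Function.Involutive (fun θ : Fin n → Bool => Function.update θ i (!θ i)) := by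
      intro θ
      funext j
      by_cases hj : j = i
      · subst hj; simp
      · simp [hj]
    have h1 := Equiv.sum_comp (Function.Involutive.toPerm _ hinv)
      (fun θ : Fin n → Bool => sg (θ i) * sg (θ k))
    have h2 : ∀ θ : Fin n → Bool, sg (Function.update θ i (!θ i) i)
        * sg (Function.update θ i (!θ i) k) = - (sg (θ i) * sg (θ k)) := by
      intro θ
      rw [Function.update_self, Function.update_of_ne (Ne.symm h)]
      cases θ i <;> cases θ k <;> simp [sg]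
    have h3 : ∑ θ : Fin n → Bool, (Function.Involutive.toPerm _ hinv θ |> fun θ =>
        sg (θ i) * sg (θ k)) = - ∑ θ : Fin n → Bool, sg (θ i) * sg (θ k) := by
      rw [← Finset.sum_neg_distrib]
      exact Finset.sum_congr rfl (fun θ _ => h2 θ)
    linarith

end Pool.Agent.Lib.Pe04c55
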