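import Pool.Agent.Lib.Pe04c55.Proj
import Pool.Agent.Lib.Pe04c55.Cube

/-!
# `XC A` is not complemented for countable `A`
-/

set_option autoImplicit false
open Filter Topology Set
open scoped ENNReal

namespace Pool.Agent.Lib.Pe04c55

/-- Agreement of branches below a level. -/
def Agr (σ : Br) (n : ℕ) (τ : Br) : Prop := ∀ j < n, σ j = τ j

lemma Agr.mono {σ τ : Br} {m n : ℕ} (h : m ≤ n) (h' : Agr σ n τ) : Agr σ m τ :=
  fun j hj => h' j (lt_of_lt_of_le hj h)

/-- Arrays concentrated on one block over a cone. -/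
noncomputable def blk (σ : Br) (n : ℕ) (u : (Fin n → Bool) → ℝ) : Arr := by
  classical
  exact fun τ m θ => if h : m = n ∧ Agr σ n τ then u (h.1 ▸ θ) else 0

lemma blk_same_of (σ : Br) (n : ℕ) (u : (Fin n → Bool) → ℝ) {τ : Br} (h : Agr σ n τ)
    (θ : Fin n → Bool) : blk σ n u τ n θ = u θ := by
  unfold blk
  rw [dif_pos ⟨rfl, h⟩]

lemma blk_of_not (σ : Br) (n : ℕ) (u : (Fin n → Bool) → ℝ) {τ : Br} (h : ¬ Agr σ n τ)
    (m : ℕ) (θ : Fin m → Bool) : blk σ n u τ m θ = 0 := by
  unfold blk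
  rw [dif_neg (fun h' => h h'.2)]

lemma blk_ne (σ : Br) (n : ℕ) (u : (Fin n → Bool) → ℝ) (τ : Br) {m : ℕ} (h : m ≠ n)
    (θ : Fin m → Bool) : blk σ n u τ m θ = 0 := by
  unfold blk
  rw [dif_neg (fun h' => h h'.1)]

lemma mom_zero {n : ℕ} (i : Fin n) : mom (fun _ : Fin n → Bool => (0:ℝ)) i = 0 := by
  simp [mom]

lemma blk_inB (σ : Br) (n : ℕ) (u : (Fin n → Bool) → ℝ) (hu : ∑ θ, |u θ| ≤ 1) :
    InB (blk σ n u) := by
  constructor
  · intro τ N
    by_cases h : Agr σ n τ
    · calc ∑ m ∈ Finset.range N, ∑ θ : Fin m → Bool, |blk σ n u τ m θ|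
          ≤ ∑ m ∈ Finset.range N, if m = n then (1:ℝ) else 0 := by
            apply Finset.sum_le_sum
            intro m _
            by_cases hm : m = n
            · subst hm
              rw [if_pos rfl]
              simp only [blk_same_of σ m u h]
              exact hu
            · rw [if_neg hm]
              simp [blk_ne σ n u τ hm]
        _ ≤ 1 := by
            rw [Finset.sum_ite_eq']
            split_ifs <;> norm_num
    · simp [blk_of_not σ n u h]
  · intro m i τ τ' hτ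
    by_cases hm : m = n
    · subst hm
      by_cases h : Agr σ m τ
      · have h' : Agr σ m τ' := fun j hj => (h j hj).trans (hτ j hj)
        have e1 : blk σ m u τ m = u := funext (fun θ => blk_same_of σ m u h θ)
        have e2 : blk σ m u τ' m = u := funext (fun θ => blk_same_of σ m u h' θ)
        rw [e1, e2]
      · have h' : ¬ Agr σ m τ' := fun h' => h (fun j hj => (h' j hj).trans (hτ j hj).symm)
        have e1 : blk σ m u τ m = fun _ => 0 := funext (fun θ => blk_of_not σ m u h m θ)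
        have e2 : blk σ m u τ' m = fun _ => 0 := funext (fun θ => blk_of_not σ m u h' m θ)
        rw [e1, e2]
    · have e1 : blk σ n u τ m = fun _ => 0 := funext (fun θ => blk_ne σ n u τ hm θ)
      have e2 : blk σ n u τ' m = fun _ => 0 := funext (fun θ => blk_ne σ n u τ' hm θ)
      rw [e1, e2]

/-- Arrays with vanishing moments, supported on a cone. -/
structure InB0 (σ : Br) (m : ℕ) (b : Arr) : Prop where
  inB : InB b
  mom0 : ∀ τ n i, mom (b τ n) i = 0
  supp : ∀ τ, ¬ Agr σ m τ → ∀ n θ, b τ n θ = 0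

/-- Vectors in `XC A` are asymptotically invisible over small cones around `σ ∉ A`. -/
lemma small_on_cones {A : Set Br} {σ : Br} (hσ : σ ∉ A) {x : X} (hx : x ∈ XC A) :
    ∀ ε > 0, ∃ m₀, ∀ m ≥ m₀, ∀ b (hb : InB0 σ m b), |fB ⟨b, hb.inB⟩ x| ≤ ε := by
  have hsub : ∀ y ∈ Submodule.span ℝ (d '' {γ : Br × Kx | γ.1 ∈ A}),
      ∃ m₀, ∀ m ≥ m₀, ∀ b (hb : InB0 σ m b), fB ⟨b, hb.inB⟩ y = 0 := by
    intro y hy
    refine Submodule.span_induction ?_ ?_ ?_ ?_ hy
    · rintro _ ⟨γ, hγ, rfl⟩
      have hne : γ.1 ≠ σ := fun h => hσ (h ▸ hγ)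
      obtain ⟨j, hj⟩ := Function.ne_iff.1 hne
      refine ⟨j + 1, fun m hm b hb => ?_⟩
      rw [fB_d]
      apply hb.supp
      intro h
      exact hj (h j (by omega)).symm
    · exact ⟨0, fun m _ b hb => by simp⟩
    · rintro x y _ _ ⟨m₁, h₁⟩ ⟨m₂, h₂⟩
      refine ⟨max m₁ m₂, fun m hm b hb => ?_⟩
      rw [map_add, h₁ m ((le_max_left _ _).trans hm) b hb, h₂ m ((le_max_right _ _).trans hm) b hb,
        add_zero]
    · rintro a x _ ⟨m₁, h₁⟩
      refine ⟨m₁, fun m hm b hb => ?_⟩
      rw [map_smul, h₁ m hm b hb, smul_zero]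
  intro ε hε
  change x ∈ closure ((Submodule.span ℝ (d '' {γ : Br × Kx | γ.1 ∈ A}) : Submodule ℝ X) : Set X)
    at hx
  rw [Metric.mem_closure_iff] at hx
  obtain ⟨y, hy, hxy⟩ := hx ε hε
  obtain ⟨m₀, h₀⟩ := hsub y hy
  refine ⟨m₀, fun m hm b hb => ?_⟩
  have h1 : fB ⟨b, hb.inB⟩ x = fB ⟨b, hb.inB⟩ (x - y) := by
    rw [map_sub, h₀ m hm b hb, sub_zero]
  rw [h1]
  apply (abs_fB_le _ _).trans
  rw [← dist_eq_norm]
  exact hxy.le

/-- The vector of a coefficient family on the branch `σ`. -/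
noncomputable def vec (σ : Br) (N : ℕ) (F : (m : ℕ) → (Fin m → Bool) → ℝ) : X :=
  ∑ m ∈ Finset.range N, ∑ θ : Fin m → Bool, F m θ • d (σ, ⟨m, θ⟩)

/-- Block vector. -/
noncomputable def bvec (σ : Br) (n : ℕ) (f : (Fin n → Bool) → ℝ) : X :=
  ∑ θ : Fin n → Bool, f θ • d (σ, ⟨n, θ⟩)

lemma norm_bvec_le (σ : Br) (n : ℕ) (f : (Fin n → Bool) → ℝ) (hf : ∀ θ, |f θ| ≤ 1) :
    ‖bvec σ n f‖ ≤ 1 := by
  classical
  let F : (m : ℕ) → (Fin m → Bool) → ℝ := fun m θ => if h : m = n then f (h ▸ θ) else 0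
  have hF : ∀ m θ, |F m θ| ≤ 1 := by
    intro m θ
    by_cases h : m = n
    · subst h; simp only [F, dif_pos]; exact hf θ
    · simp [F, h]
  have h1 := norm_block_le σ (n + 1) F hF
  have h2 : ∑ m ∈ Finset.range (n + 1), ∑ θ : Fin m → Bool, F m θ • d (σ, ⟨m, θ⟩)
      = bvec σ n f := by
    rw [Finset.sum_eq_single n]
    · unfold bvec
      apply Finset.sum_congr rfl
      intro θ _
      simp [F]
    · intro m _ hm
      apply Finset.sum_eq_zero
      intro θ _
      simp [F, hm]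
    · intro h
      exact absurd (Finset.mem_range.2 (Nat.lt_succ_self n)) h
  rwa [h2] at h1

/-- Sum of two arrays with disjoint branch supports. -/
lemma inB_add {b b' : Arr} (hb : InB b) (hb' : InB b') (m0 : ∀ τ n i, mom (b τ n) i = 0)
    (m0' : ∀ τ n i, mom (b' τ n) i = 0)
    (hd : ∀ τ, (∀ n θ, b τ n θ = 0) ∨ (∀ n θ, b' τ n θ = 0)) :
    InB (fun τ n θ => b τ n θ + b' τ n θ) := by
  constructor
  · intro τ N
    rcases hd τ with h | h
    · simp only [h, zero_add]; exact hb'.mass τ N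
    · simp only [h, add_zero]; exact hb.mass τ N
  · intro n i σ τ _
    have key : ∀ τ, mom (fun θ => b τ n θ + b' τ n θ) i = 0 := by
      intro τ
      have h1 := m0 τ n i
      have h2 := m0' τ n i
      unfold mom at h1 h2 ⊢
      simp only [mul_add, Finset.sum_add_distrib]
      linarith
    rw [key, key]

lemma mom_add {n : ℕ} (u v : (Fin n → Bool) → ℝ) (i : Fin n) :
    mom (fun θ => u θ + v θ) i = mom u i + mom v i := by
  unfold mom; simp only [mul_add, Finset.sum_add_distrib]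

lemma mom_smul {n : ℕ} (a : ℝ) (u : (Fin n → Bool) → ℝ) (i : Fin n) :
    mom (fun θ => a * u θ) i = a * mom u i := by
  unfold mom; rw [Finset.mul_sum]; exact Finset.sum_congr rfl (fun θ _ => by ring)

/-- Restriction of an array to a set of branches and multiplication by a sign. -/
noncomputable def restr (p : Br → Prop) (s : ℝ) (b : Arr) : Arr := by
  classical
  exact fun τ n θ => if p τ then s * b τ n θ else 0

lemma restr_pos {p : Br → Prop} {s : ℝ} {b : Arr} {τ : Br} (h : p τ) (n : ℕ) (θ : Fin n → Bool) :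
    restr p s b τ n θ = s * b τ n θ := by unfold restr; simp [h]

lemma restr_neg {p : Br → Prop} {s : ℝ} {b : Arr} {τ : Br} (h : ¬ p τ) (n : ℕ)
    (θ : Fin n → Bool) : restr p s b τ n θ = 0 := by unfold restr; simp [h]

lemma restr_mom {p : Br → Prop} {s : ℝ} {b : Arr} (m0 : ∀ τ n i, mom (b τ n) i = 0)
    (τ : Br) (n : ℕ) (i : Fin n) : mom (restr p s b τ n) i = 0 := by
  by_cases h : p τ
  · have : restr p s b τ n = fun θ => s * b τ n θ := funext (fun θ => restr_pos h n θ)
    rw [this, mom_smul, m0, mul_zero]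
  · have : restr p s b τ n = fun θ => 0 := funext (fun θ => restr_neg h n θ)
    rw [this, mom_zero]

lemma restr_inB {p : Br → Prop} {s : ℝ} (hs : |s| ≤ 1) {b : Arr} (hb : InB b)
    (m0 : ∀ τ n i, mom (b τ n) i = 0) : InB (restr p s b) := by
  constructor
  · intro τ N
    by_cases h : p τ
    · refine le_trans ?_ (hb.mass τ N)
      apply Finset.sum_le_sum
      intro n _
      apply Finset.sum_le_sum
      intro θ _
      rw [restr_pos h, abs_mul]
      calc |s| * |b τ n θ| ≤ 1 * |b τ n θ| := mul_le_mul_of_nonneg_right hs (abs_nonneg _)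
        _ = _ := one_mul _
    · simp [restr_neg h]
  · intro n i σ τ _
    rw [restr_mom m0, restr_mom m0]

/-- The gliding hump: blocks of `P` become invisible over small cones. -/
lemma hump {A : Set Br} {σ : Br} (hσ : σ ∉ A) (P : X →L[ℝ] X) (hP : ∀ x, P x ∈ XC A)
    (ε : ℝ) (hε : 0 < ε) :
    ∃ n₀, ∀ n ≥ n₀, ∀ f : (Fin n → Bool) → ℝ, (∀ θ, |f θ| ≤ 1) →
      ∀ b (hb : InB0 σ n b), |fB ⟨b, hb.inB⟩ (P (bvec σ n f))| ≤ ε := by
  by_contra hcon
  push Not at hcon
  have claim : ∀ N : ℕ, ∃ (n : ℕ) (F : (m : ℕ) → (Fin m → Bool) → ℝ) (b : Arr) (hb : InB b),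
      (∀ m θ, |F m θ| ≤ 1) ∧ (∀ τ n i, mom (b τ n) i = 0) ∧
      (∀ τ, Agr σ n τ → ∀ m θ, b τ m θ = 0) ∧
      N * (ε / 2) ≤ fB ⟨b, hb⟩ (P (vec σ n F)) := by
    intro N
    induction N with
    | zero =>
      refine ⟨0, fun _ _ => 0, fun _ _ _ => 0, ⟨by simp, by simp⟩, by simp, ?_, by simp, ?_⟩
      · intro τ n i; exact mom_zero i
      · simp [vec]
    | succ N ih =>
      obtain ⟨n, F, b, hb, hF, hb0, hbs, hval⟩ := ih
      obtain ⟨n', hn', f', hf', b', hb', hlt⟩ := hcon n
      obtain ⟨m₀, hm₀⟩ := small_on_cones hσ (hP (bvec σ n' f')) (ε / 2) (by linarith)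
      set n'' := max m₀ (n' + 1) with hn''
      -- the part of `b'` over the small cone, and off it
      have hin : InB0 σ n'' (restr (Agr σ n'') 1 b') := by
        refine ⟨restr_inB (by simp) hb'.inB hb'.mom0, restr_mom hb'.mom0, ?_⟩
        intro τ hτ m θ
        exact restr_neg hτ m θ
      have hcone := hm₀ n'' (le_max_left _ _) _ hin
      -- choose sign
      obtain ⟨s, hs, hsval⟩ : ∃ s : ℝ, |s| = 1 ∧
          ε / 2 < s * (fB ⟨b', hb'.inB⟩ (P (bvec σ n' f'))
            - fB ⟨_, hin.inB⟩ (P (bvec σ n' f'))) := by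
        have h1 : ε / 2 < |fB ⟨b', hb'.inB⟩ (P (bvec σ n' f'))
            - fB ⟨_, hin.inB⟩ (P (bvec σ n' f'))| := by
          have := abs_sub_abs_le_abs_sub (fB ⟨b', hb'.inB⟩ (P (bvec σ n' f')))
            (fB ⟨_, hin.inB⟩ (P (bvec σ n' f')))
          linarith
        rcases le_total 0 (fB ⟨b', hb'.inB⟩ (P (bvec σ n' f'))
            - fB ⟨_, hin.inB⟩ (P (bvec σ n' f'))) with h | h
        · exact ⟨1, by simp, by rwa [abs_of_nonneg h, ← one_mul (_ - _)] at h1⟩
        · exact ⟨-1, by simp, by rw [abs_of_nonpos h] at h1; linarith⟩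
      -- the off-cone part, as a family depending on a sign
      have hoff : ∀ t : ℝ, |t| = 1 → InB (restr (fun τ => ¬ Agr σ n'' τ) (t * s) b') := fun t ht =>
        restr_inB (by rw [abs_mul, ht, hs, one_mul]) hb'.inB hb'.mom0
      have hoffval : ∀ (t : ℝ) (ht : |t| = 1) (x : X), fB ⟨_, hoff t ht⟩ x
          = t * s * (fB ⟨b', hb'.inB⟩ x - fB ⟨_, hin.inB⟩ x) := by
        intro t ht x
        have := ext_d (f := fB ⟨_, hoff t ht⟩)
          (g := (t * s) • (fB ⟨b', hb'.inB⟩ - fB ⟨_, hin.inB⟩)) (by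
          intro γ
          have e0 : ((t * s) • (fB ⟨b', hb'.inB⟩ - fB ⟨_, hin.inB⟩)) (d γ)
            = t * s * (fB ⟨b', hb'.inB⟩ (d γ) - fB ⟨_, hin.inB⟩ (d γ)) := rfl
          rw [e0, fB_d, fB_d, fB_d]
          by_cases h : Agr σ n'' γ.1
          · simp only [restr_pos (p := Agr σ n'') h, restr_neg (p := fun τ => ¬ Agr σ n'' τ)
              (not_not.2 h)]
            ring
          · simp only [restr_neg (p := Agr σ n'') h, restr_pos (p := fun τ => ¬ Agr σ n'' τ) h]
            ring) x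
        exact this
      have hsum : ∀ t : ℝ, |t| = 1 → InB (fun τ m θ => b τ m θ
          + restr (fun τ => ¬ Agr σ n'' τ) (t * s) b' τ m θ) := by
        intro t ht
        apply inB_add hb (hoff t ht) hb0 (restr_mom hb'.mom0)
        intro τ
        by_cases h : Agr σ n τ
        · left; exact hbs τ h
        · right
          intro m θ
          have h' : ¬ Agr σ n' τ := fun h'' => h (h''.mono hn')
          by_cases h3 : ¬ Agr σ n'' τ
          · rw [restr_pos (p := fun τ => ¬ Agr σ n'' τ) h3, hb'.supp τ h', mul_zero]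
          · exact restr_neg (p := fun τ => ¬ Agr σ n'' τ) h3 m θ
      have hsumval : ∀ (t : ℝ) (ht : |t| = 1) (x : X), fB ⟨_, hsum t ht⟩ x
          = fB ⟨b, hb⟩ x + t * s * (fB ⟨b', hb'.inB⟩ x - fB ⟨_, hin.inB⟩ x) := by
        intro t ht x
        rw [← hoffval t ht x]
        exact ext_d (f := fB ⟨_, hsum t ht⟩) (g := fB ⟨b, hb⟩ + fB ⟨_, hoff t ht⟩)
          (by intro γ; rfl) x
      -- new vectors
      let Fn : ℝ → (m : ℕ) → (Fin m → Bool) → ℝ := fun t m θ =>
        if m < n then F m θ else if h : m = n' then t * f' (h ▸ θ) else 0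
      have hFn : ∀ t : ℝ, |t| = 1 → ∀ m θ, |Fn t m θ| ≤ 1 := by
        intro t ht m θ
        simp only [Fn]
        split_ifs with h1 h2
        · exact hF m θ
        · subst h2
          rw [abs_mul, ht, one_mul]; exact hf' θ
        · simp
      have hvec : ∀ t : ℝ, vec σ n'' (Fn t) = vec σ n F + t • bvec σ n' f' := by
        intro t
        have hle : n ≤ n'' := hn'.trans ((Nat.le_succ n').trans (le_max_right _ _))
        unfold vec
        rw [← Finset.sum_range_add_sum_Ico _ hle]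
        congr 1
        · apply Finset.sum_congr rfl
          intro m hm
          apply Finset.sum_congr rfl
          intro θ _
          simp only [Fn, if_pos (Finset.mem_range.1 hm)]
        · rw [Finset.sum_eq_single n']
          · unfold bvec
            rw [Finset.smul_sum]
            apply Finset.sum_congr rfl
            intro θ _
            simp only [Fn, if_neg (not_lt.2 hn'), dif_pos]
            rw [smul_smul]
          · intro m hm hne
            apply Finset.sum_eq_zero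
            intro θ _
            simp only [Fn, if_neg (not_lt.2 (Finset.mem_Ico.1 hm).1), dif_neg hne, zero_smul]
          · intro h
            exact absurd (Finset.mem_Ico.2 ⟨hn', lt_of_lt_of_le (Nat.lt_succ_self n')
              (le_max_right _ _)⟩) h
      -- choose the sign `t`
      set a := fB ⟨b, hb⟩ (P (bvec σ n' f')) + s * (fB ⟨b', hb'.inB⟩ (P (vec σ n F))
        - fB ⟨_, hin.inB⟩ (P (vec σ n F))) with ha
      obtain ⟨t, ht, hta⟩ : ∃ t : ℝ, |t| = 1 ∧ 0 ≤ t * a := by
        rcases le_total 0 a with h | h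
        · exact ⟨1, by simp, by simpa using h⟩
        · exact ⟨-1, by simp, by simpa using h⟩
      have htt : t * t = 1 := by
        have := congrArg (fun x => x ^ 2) ht
        simp only [sq_abs, one_pow] at this
        rw [← this]; ring
      refine ⟨n'', Fn t, _, hsum t ht, hFn t ht, ?_, ?_, ?_⟩
      · intro τ m i
        rw [mom_add, hb0, restr_mom hb'.mom0, add_zero]
      · intro τ hτ m θ
        have h1 : Agr σ n τ := hτ.mono (hn'.trans ((Nat.le_succ n').trans (le_max_right _ _)))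
        rw [hbs τ h1, restr_neg (p := fun τ => ¬ Agr σ n'' τ) (not_not.2 hτ), add_zero]
      · rw [hsumval t ht, hvec, map_add, map_smul, map_add, map_add, map_add, map_smul, map_smul,
          map_smul]
        simp only [smul_eq_mul]
        have key : fB ⟨b, hb⟩ (P (vec σ n F)) + t * fB ⟨b, hb⟩ (P (bvec σ n' f')) +
          t * s * (fB ⟨b', hb'.inB⟩ (P (vec σ n F)) + t * fB ⟨b', hb'.inB⟩ (P (bvec σ n' f'))
            - (fB ⟨_, hin.inB⟩ (P (vec σ n F)) + t * fB ⟨_, hin.inB⟩ (P (bvec σ n' f'))))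
          = fB ⟨b, hb⟩ (P (vec σ n F)) + t * a
            + (t * t) * (s * (fB ⟨b', hb'.inB⟩ (P (bvec σ n' f'))
            - fB ⟨_, hin.inB⟩ (P (bvec σ n' f')))) := by
          rw [ha]; ring
        rw [key, htt, one_mul]
        push_cast
        linarith
  -- contradiction
  obtain ⟨N, hN⟩ := exists_nat_gt (‖P‖ / (ε / 2))
  obtain ⟨n, F, b, hb, hF, -, -, hval⟩ := claim N
  have h1 : fB ⟨b, hb⟩ (P (vec σ n F)) ≤ ‖P‖ := by
    calc fB ⟨b, hb⟩ (P (vec σ n F)) ≤ |fB ⟨b, hb⟩ (P (vec σ n F))| := le_abs_self _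
      _ ≤ ‖P (vec σ n F)‖ := abs_fB_le _ _
      _ ≤ ‖P‖ * ‖vec σ n F‖ := P.le_opNorm _
      _ ≤ ‖P‖ * 1 := mul_le_mul_of_nonneg_left (norm_block_le σ n F hF) (norm_nonneg _)
      _ = ‖P‖ := mul_one _
  rw [div_lt_iff₀ (by linarith)] at hN
  linarith

/-- Evaluation at a vertex of the cube of level `n` over the cone of `σ`. -/
noncomputable def Ev (σ : Br) (n : ℕ) (θ : Fin n → Bool) : X →L[ℝ] ℝ :=
  fB ⟨blk σ n (Pi.single θ 1), blk_inB σ n _ (by
    rw [Finset.sum_eq_single θ]
    · simp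
    · intro b _ hb; simp [Pi.single_eq_of_ne hb]
    · intro h; exact absurd (Finset.mem_univ _) h)⟩

lemma abs_Ev_le (σ : Br) (n : ℕ) (θ : Fin n → Bool) (x : X) : |Ev σ n θ x| ≤ ‖x‖ := abs_fB_le _ x

lemma Ev_d_same (σ : Br) (n : ℕ) (θ θ' : Fin n → Bool) :
    Ev σ n θ (d (σ, ⟨n, θ'⟩)) = if θ' = θ then 1 else 0 := by
  unfold Ev
  rw [fB_d]
  simp only
  rw [blk_same_of σ n _ (fun j _ => rfl), Pi.single_apply]

/-- The functional of a block array. -/
lemma fB_blk (σ : Br) (n : ℕ) (u : (Fin n → Bool) → ℝ) (hu : InB (blk σ n u)) (x : X) :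
    fB ⟨blk σ n u, hu⟩ x = ∑ θ, u θ * Ev σ n θ x := by
  have h1 := ext_d (f := fB ⟨blk σ n u, hu⟩) (g := ∑ θ, u θ • Ev σ n θ) (by
    intro γ
    have e0 : (∑ θ, u θ • Ev σ n θ) (d γ) = ∑ θ, u θ * Ev σ n θ (d γ) := by
      rw [sum_apply]
      rfl
    rw [e0, fB_d]
    obtain ⟨τ, ⟨m, θ'⟩⟩ := γ
    simp only
    by_cases hm : m = n
    · subst hm
      by_cases h : Agr σ m τ
      · rw [blk_same_of σ m u h]
        rw [Finset.sum_eq_single θ']
        · unfold Ev
          rw [fB_d]
          simp only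
          rw [blk_same_of σ m _ h, Pi.single_eq_same, mul_one]
        · intro θ _ hθ
          unfold Ev
          rw [fB_d]
          simp only
          rw [blk_same_of σ m _ h, Pi.single_eq_of_ne (Ne.symm hθ), mul_zero]
        · intro h'; exact absurd (Finset.mem_univ _) h'
      · rw [blk_of_not σ m u h]
        symm
        apply Finset.sum_eq_zero
        intro θ _
        unfold Ev
        rw [fB_d]
        simp only
        rw [blk_of_not σ m _ h, mul_zero]
    · rw [blk_ne σ n u τ hm]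
      symm
      apply Finset.sum_eq_zero
      intro θ _
      unfold Ev
      rw [fB_d]
      simp only
      rw [blk_ne σ n _ τ hm, mul_zero]) x
  rw [h1, sum_apply]
  rfl

/-- Sign function on the cube. -/
noncomputable def sgn {n : ℕ} (θ : Fin n → Bool) : ℝ := if 0 ≤ S θ then 1 else -1

lemma abs_sgn_le {n : ℕ} (θ : Fin n → Bool) : |sgn θ| ≤ 1 := by
  unfold sgn; split_ifs <;> simp

lemma S_mul_sgn {n : ℕ} (θ : Fin n → Bool) : S θ * sgn θ = |S θ| := by
  unfold sgn
  split_ifs with h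
  · rw [abs_of_nonneg h, mul_one]
  · rw [abs_of_neg (not_le.1 h)]; ring

/-- `XC A` is not complemented in `X` when `A ⊇ A0` is countable. -/
theorem not_proj {A : Set Br} (hA0 : A0 ⊆ A) (hA : A.Countable) (P : X →L[ℝ] X)
    (hP1 : ∀ x ∈ XC A, P x = x) (hP2 : ∀ x, P x ∈ XC A) : False := by
  classical
  obtain ⟨σ, hσ⟩ : ∃ σ : Br, σ ∉ A := by
    by_contra hcon
    push Not at hcon
    have h1 : (Set.univ : Set Br).Countable := hA.mono (fun σ _ => hcon σ)
    have h2 : Cardinal.mk Br ≤ Cardinal.aleph0 := by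
      rw [← Cardinal.mk_univ]
      exact Cardinal.le_aleph0_iff_set_countable.2 h1
    have h3 : Cardinal.mk Br = Cardinal.continuum := by simp
    rw [h3] at h2
    exact absurd h2 (not_le.2 Cardinal.aleph0_lt_continuum)
  obtain ⟨n₀, hn₀⟩ := hump hσ P hP2 (1 / 4) (by norm_num)
  obtain ⟨n, hn, hk⟩ := exists_kap_large (2 * ‖P‖ + 1) n₀
  have h2n : (0:ℝ) < 2 ^ n := by positivity
  -- the key inequality for each `g`
  have hkey : ∀ g : Fin n → Bool, |∑ θ, S (cm g θ) * Ev σ n θ (P (bvec σ n (fun θ => sgn (cm g θ))))|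
      ≤ 2 ^ n * ‖P‖ + (kap n + 2 ^ n) * (1 / 4) := by
    intro g
    set x := P (bvec σ n (fun θ => sgn (cm g θ))) with hx
    have hxn : ‖x‖ ≤ ‖P‖ := by
      calc ‖x‖ ≤ ‖P‖ * ‖bvec σ n (fun θ => sgn (cm g θ))‖ := P.le_opNorm _
        _ ≤ ‖P‖ * 1 := mul_le_mul_of_nonneg_left
            (norm_bvec_le σ n _ (fun θ => abs_sgn_le _)) (norm_nonneg _)
        _ = ‖P‖ := mul_one _
    -- difference array
    let c : (Fin n → Bool) → ℝ := fun θ => S (cm g θ) - 2 ^ n * (if θ = g then 1 else 0)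
    have hcmom : ∀ i, mom c i = 0 := by
      intro i
      have e1 : ∑ θ : Fin n → Bool, sg (θ i) * S (cm g θ) = 2 ^ n * sg (g i) := by
        have e2 : ∀ θ : Fin n → Bool, sg (θ i) * S (cm g θ)
            = ∑ k, sg (g k) * (sg (θ i) * sg (θ k)) := by
          intro θ
          unfold S
          rw [Finset.mul_sum]
          apply Finset.sum_congr rfl
          intro k _
          rw [sg_cm]; ring
        rw [Finset.sum_congr rfl (fun θ _ => e2 θ), Finset.sum_comm]
        have e3 : ∀ k, ∑ θ : Fin n → Bool, sg (g k) * (sg (θ i) * sg (θ k))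
            = if i = k then sg (g k) * 2 ^ n else 0 := by
          intro k
          rw [← Finset.mul_sum, sum_sg_mul]
          split_ifs <;> simp
        rw [Finset.sum_congr rfl (fun k _ => e3 k)]
        rw [Finset.sum_ite_eq Finset.univ i]
        simp [mul_comm]
      unfold mom
      simp only [c, mul_sub]
      rw [Finset.sum_sub_distrib, e1]
      simp only [mul_ite, mul_one, mul_zero]
      rw [Finset.sum_ite_eq' Finset.univ g]
      simp [mul_comm]
    have hcmass : ∑ θ, |c θ| ≤ kap n + 2 ^ n := by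
      calc ∑ θ, |c θ| ≤ ∑ θ : Fin n → Bool, (|S (cm g θ)| + 2 ^ n * (if θ = g then 1 else 0)) := by
            apply Finset.sum_le_sum
            intro θ _
            apply (abs_sub _ _).trans
            apply add_le_add le_rfl
            split_ifs
            · rw [abs_of_nonneg (by positivity)]
            · simp
        _ = kap n + 2 ^ n := by
            rw [Finset.sum_add_distrib, sum_cm g (fun θ => |S θ|), ← Finset.mul_sum,
              Finset.sum_ite_eq' Finset.univ g]
            simp [kap]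
    have hMpos : 0 < kap n + 2 ^ n := by have := kap_nonneg n; linarith
    have hcsmall : |∑ θ, c θ * Ev σ n θ x| ≤ (kap n + 2 ^ n) * (1 / 4) := by
      let u : (Fin n → Bool) → ℝ := fun θ => (kap n + 2 ^ n)⁻¹ * c θ
      have hu1 : ∑ θ, |u θ| ≤ 1 := by
        simp only [u, abs_mul]
        rw [← Finset.mul_sum, abs_of_pos (inv_pos.2 hMpos), inv_mul_le_iff₀ hMpos, mul_one]
        exact hcmass
      have hu0 : InB0 σ n (blk σ n u) := by
        refine ⟨blk_inB σ n u hu1, ?_, ?_⟩
        · intro τ m i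
          by_cases hm : m = n
          · subst hm
            by_cases h : Agr σ m τ
            · have e1 : blk σ m u τ m = u := funext (fun θ => blk_same_of σ m u h θ)
              rw [e1]
              change mom (fun θ => (kap m + 2 ^ m)⁻¹ * c θ) i = 0
              rw [mom_smul, hcmom, mul_zero]
            · have e1 : blk σ m u τ m = fun _ => 0 := funext (fun θ => blk_of_not σ m u h m θ)
              rw [e1, mom_zero]
          · have e1 : blk σ n u τ m = fun _ => 0 := funext (fun θ => blk_ne σ n u τ hm θ)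
            rw [e1, mom_zero]
        · intro τ hτ m θ
          exact blk_of_not σ n u hτ m θ
      have h1 := hn₀ n hn (fun θ => sgn (cm g θ)) (fun θ => abs_sgn_le _) _ hu0
      rw [← hx, fB_blk] at h1
      have h2 : ∑ θ, u θ * Ev σ n θ x = (kap n + 2 ^ n)⁻¹ * ∑ θ, c θ * Ev σ n θ x := by
        rw [Finset.mul_sum]
        exact Finset.sum_congr rfl (fun θ _ => by simp only [u]; ring)
      rw [h2, abs_mul, abs_of_pos (inv_pos.2 hMpos), inv_mul_le_iff₀ hMpos] at h1
      exact h1
    have hsplit : ∑ θ, S (cm g θ) * Ev σ n θ x = 2 ^ n * Ev σ n g x + ∑ θ, c θ * Ev σ n θ x := by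
      simp only [c, sub_mul]
      rw [Finset.sum_sub_distrib]
      have : ∑ θ : Fin n → Bool, 2 ^ n * (if θ = g then (1:ℝ) else 0) * Ev σ n θ x
          = 2 ^ n * Ev σ n g x := by
        simp only [mul_ite, mul_one, mul_zero, ite_mul, zero_mul]
        rw [Finset.sum_ite_eq' Finset.univ g]
        simp
      rw [this]; ring
    rw [hsplit]
    calc |2 ^ n * Ev σ n g x + ∑ θ, c θ * Ev σ n θ x|
        ≤ |2 ^ n * Ev σ n g x| + |∑ θ, c θ * Ev σ n θ x| := abs_add_le _ _
      _ ≤ 2 ^ n * ‖P‖ + (kap n + 2 ^ n) * (1 / 4) := by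
          apply add_le_add _ hcsmall
          rw [abs_mul, abs_of_pos h2n]
          exact mul_le_mul_of_nonneg_left ((abs_Ev_le σ n g x).trans hxn) h2n.le
  -- the averaged identity
  have hρ : ∀ i : Fin n, P (∑ θ : Fin n → Bool, sg (θ i) • d (σ, ⟨n, θ⟩))
      = ∑ θ : Fin n → Bool, sg (θ i) • d (σ, ⟨n, θ⟩) := by
    intro i
    apply hP1
    obtain ⟨τ, hτ, hj⟩ := exists_A0 σ n
    rw [rad_eq n i σ τ hj]
    apply Submodule.sum_mem
    intro θ _
    exact Submodule.smul_mem _ _ (d_mem_XC (hA0 hτ))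
  set Q : (Fin n → Bool) → (Fin n → Bool) → ℝ := fun θ θ' => Ev σ n θ (P (d (σ, ⟨n, θ'⟩))) with hQ
  have hQsum : ∀ i : Fin n, ∀ θ : Fin n → Bool, ∑ θ', sg (θ' i) * Q θ θ' = sg (θ i) := by
    intro i θ
    have e1 : ∑ θ', sg (θ' i) * Q θ θ' = Ev σ n θ (P (∑ θ' : Fin n → Bool,
        sg (θ' i) • d (σ, ⟨n, θ'⟩))) := by
      rw [map_sum, map_sum]
      apply Finset.sum_congr rfl
      intro θ' _
      rw [map_smul, map_smul, smul_eq_mul]
    rw [e1, hρ, map_sum]
    have e2 : ∀ θ' : Fin n → Bool, Ev σ n θ (sg (θ' i) • d (σ, ⟨n, θ'⟩))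
        = if θ' = θ then sg (θ' i) else 0 := by
      intro θ'
      rw [map_smul, Ev_d_same, smul_eq_mul]
      split_ifs <;> simp
    rw [Finset.sum_congr rfl (fun θ' _ => e2 θ'), Finset.sum_ite_eq' Finset.univ θ]
    simp
  have hc : ∀ (i : Fin n) (θ' : Fin n → Bool), ∑ g : Fin n → Bool, sg (g i) * sgn (cm g θ')
      = sg (θ' i) * ∑ h : Fin n → Bool, sg (h i) * sgn h := by
    intro i θ'
    rw [← sum_cm θ' (fun g => sg (g i) * sgn (cm g θ')), Finset.mul_sum]
    apply Finset.sum_congr rfl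
    intro h _
    rw [sg_cm, cm_comm (cm θ' h) θ', cm_cm]; ring
  have hid : ∑ g : Fin n → Bool, ∑ θ, S (cm g θ) *
      Ev σ n θ (P (bvec σ n (fun θ => sgn (cm g θ)))) = 2 ^ n * kap n := by
    have e1 : ∀ g : Fin n → Bool, ∑ θ, S (cm g θ) *
        Ev σ n θ (P (bvec σ n (fun θ => sgn (cm g θ))))
        = ∑ i, ∑ θ, ∑ θ', sg (θ i) * Q θ θ' * (sg (g i) * sgn (cm g θ')) := by
      intro g
      rw [Finset.sum_comm]
      apply Finset.sum_congr rfl
      intro θ _
      have e2 : Ev σ n θ (P (bvec σ n (fun θ => sgn (cm g θ)))) = ∑ θ', sgn (cm g θ') * Q θ θ' := by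
        unfold bvec
        rw [map_sum, map_sum]
        apply Finset.sum_congr rfl
        intro θ' _
        rw [map_smul, map_smul, smul_eq_mul]
      rw [e2]
      unfold S
      rw [Finset.sum_mul]
      apply Finset.sum_congr rfl
      intro i _
      rw [sg_cm, Finset.mul_sum]
      apply Finset.sum_congr rfl
      intro θ' _
      ring
    rw [Finset.sum_congr rfl (fun g _ => e1 g), Finset.sum_comm]
    have e3 : ∀ i : Fin n, ∑ g : Fin n → Bool, ∑ θ, ∑ θ',
        sg (θ i) * Q θ θ' * (sg (g i) * sgn (cm g θ'))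
        = 2 ^ n * ∑ h : Fin n → Bool, sg (h i) * sgn h := by
      intro i
      rw [Finset.sum_comm]
      have e4 : ∀ θ : Fin n → Bool, ∑ g : Fin n → Bool, ∑ θ',
          sg (θ i) * Q θ θ' * (sg (g i) * sgn (cm g θ'))
          = ∑ h : Fin n → Bool, sg (h i) * sgn h := by
        intro θ
        rw [Finset.sum_comm]
        have e5 : ∀ θ' : Fin n → Bool, ∑ g : Fin n → Bool,
            sg (θ i) * Q θ θ' * (sg (g i) * sgn (cm g θ'))
            = (sg (θ i) * ∑ h : Fin n → Bool, sg (h i) * sgn h) * (sg (θ' i) * Q θ θ') := by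
          intro θ'
          rw [← Finset.mul_sum, hc]; ring
        rw [Finset.sum_congr rfl (fun θ' _ => e5 θ'), ← Finset.mul_sum, hQsum]
        rw [mul_comm (sg (θ i)) _, mul_assoc, sg_sq, mul_one]
      rw [Finset.sum_congr rfl (fun θ _ => e4 θ), Finset.sum_const]
      simp
    rw [Finset.sum_congr rfl (fun i _ => e3 i), ← Finset.mul_sum, Finset.sum_comm]
    congr 1
    unfold kap
    apply Finset.sum_congr rfl
    intro h _
    rw [← Finset.sum_mul, ← S_mul_sgn]
    rfl
  have hle : 2 ^ n * kap n ≤ ∑ _g : Fin n → Bool, (2 ^ n * ‖P‖ + (kap n + 2 ^ n) * (1 / 4)) := by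
    rw [← hid]
    exact Finset.sum_le_sum (fun g _ => (le_abs_self _).trans (hkey g))
  rw [Finset.sum_const] at hle
  simp only [Finset.card_univ, Fintype.card_pi, Fintype.card_bool, Finset.prod_const,
    Fintype.card_fin, nsmul_eq_mul, Nat.cast_pow, Nat.cast_ofNat] at hle
  have h3 := le_of_mul_le_mul_left hle h2n
  have h4 : 0 ≤ ‖P‖ := norm_nonneg _
  nlinarith

end Pool.Agent.Lib.Pe04c55
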