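import Pool.Agent.Lib.Pe04c55.Valdivia

/-!
# From a countably norming system to projections onto `XC A`
-/

set_option autoImplicit false
open Filter Topology Set
open scoped ENNReal

namespace Pool.Agent.Lib.Pe04c55

section closing

variable {I : Type} (e : I → X) (c : ℝ)

/-- One closing-off step. -/
def stepJ (α : I → Set Br) (β : Br × Kx → Set I) (Dn : Set I → Set X) (gam : X → ℚ → Set I)
    (J : Set I) : Set I :=
  J ∪ (⋃ γ ∈ {γ : Br × Kx | γ.1 ∈ A0 ∪ ⋃ i ∈ J, α i}, β γ) ∪ ⋃ x ∈ Dn J, ⋃ r : ℚ, gam x r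

lemma stepJ_countable {α : I → Set Br} {β : Br × Kx → Set I} {Dn : Set I → Set X}
    {gam : X → ℚ → Set I} (hα : ∀ i, (α i).Countable) (hβ : ∀ γ, (β γ).Countable)
    (hD : ∀ J : Set I, J.Countable → (Dn J).Countable) (hg : ∀ x r, (gam x r).Countable)
    {J : Set I} (hJ : J.Countable) : (stepJ α β Dn gam J).Countable := by
  have h1 : (A0 ∪ ⋃ i ∈ J, α i).Countable :=
    countable_A0.union (Set.Countable.biUnion hJ (fun i _ => hα i))
  have h2 : {γ : Br × Kx | γ.1 ∈ A0 ∪ ⋃ i ∈ J, α i}.Countable := by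
    have : {γ : Br × Kx | γ.1 ∈ A0 ∪ ⋃ i ∈ J, α i} ⊆ (A0 ∪ ⋃ i ∈ J, α i) ×ˢ (Set.univ : Set Kx) :=
      fun γ hγ => ⟨hγ, Set.mem_univ _⟩
    exact (h1.prod Set.countable_univ).mono this
  refine (hJ.union (Set.Countable.biUnion h2 (fun γ _ => hβ γ))).union ?_
  exact Set.Countable.biUnion (hD J hJ) (fun x _ => Set.countable_iUnion (fun r => hg x r))

/-- The closing-off argument: a countable set `J` of indices and a countable set `A` of branches
with the same closed span, such that functionals supported on `J` are norming for that span. -/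
lemma exists_closed_pair (hdense : (Submodule.span ℝ (Set.range e)).topologicalClosure = ⊤)
    (hnorm : ∀ x : X, ∀ r : ℝ, r < c * ‖x‖ →
      ∃ φ : X →L[ℝ] ℝ, {i | φ (e i) ≠ 0}.Countable ∧ ‖φ‖ ≤ 1 ∧ r < |φ x|) (hc : 0 < c) :
    ∃ (J : Set I) (A : Set Br), A0 ⊆ A ∧ A.Countable ∧
      XC A = (Submodule.span ℝ (e '' J)).topologicalClosure ∧
      ∀ x ∈ (Submodule.span ℝ (e '' J)).topologicalClosure, ∀ r : ℝ, r < c * ‖x‖ →
        ∃ φ : X →L[ℝ] ℝ, (∀ i, i ∉ J → φ (e i) = 0) ∧ ‖φ‖ ≤ 1 ∧ r < |φ x| := by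
  classical
  choose α hα1 hα2 using fun i => exists_countable_XC (e i)
  choose β hβ1 hβ2 using fun γ => exists_countable_closure_span e (d γ)
    (by rw [hdense]; exact Submodule.mem_top)
  have hDex : ∀ J : Set I, ∃ D : Set X, (J.Countable → D.Countable) ∧
      (J.Countable → ((Submodule.span ℝ (e '' J) : Submodule ℝ X) : Set X) ⊆ closure D) := by
    intro J
    by_cases hJ : J.Countable
    · have h1 : TopologicalSpace.IsSeparable
          ((Submodule.span ℝ (e '' J) : Submodule ℝ X) : Set X) :=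
        ((hJ.image e).isSeparable).span
      obtain ⟨D, hD1, hD2⟩ := h1
      exact ⟨D, fun _ => hD1, fun _ => hD2⟩
    · exact ⟨∅, fun h => absurd h hJ, fun h => absurd h hJ⟩
  choose Dn hD1 hD2 using hDex
  have hgex : ∀ (x : X) (r : ℚ), ∃ S : Set I, S.Countable ∧ ((r : ℝ) < c * ‖x‖ →
      ∃ φ : X →L[ℝ] ℝ, {i | φ (e i) ≠ 0} ⊆ S ∧ ‖φ‖ ≤ 1 ∧ (r : ℝ) < |φ x|) := by
    intro x r
    by_cases h : (r : ℝ) < c * ‖x‖
    · obtain ⟨φ, h1, h2, h3⟩ := hnorm x r h
      exact ⟨_, h1, fun _ => ⟨φ, Set.Subset.rfl, h2, h3⟩⟩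
    · exact ⟨∅, Set.countable_empty, fun h' => absurd h' h⟩
  choose gam hg1 hg2 using hgex
  let Js : ℕ → Set I := fun n => Nat.rec ∅ (fun _ J => stepJ α β Dn gam J) n
  have hJs : ∀ n, Js (n + 1) = stepJ α β Dn gam (Js n) := fun n => rfl
  have hJc : ∀ n, (Js n).Countable := by
    intro n
    induction n with
    | zero => exact Set.countable_empty
    | succ n ih => rw [hJs]; exact stepJ_countable hα1 hβ1 hD1 hg1 ih
  have hsub1 : ∀ n, Js n ⊆ Js (n + 1) := by
    intro n i hi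
    rw [hJs]; exact Or.inl (Or.inl hi)
  have hmono : Monotone Js := monotone_nat_of_le_succ hsub1
  let J : Set I := ⋃ n, Js n
  let A : Set Br := A0 ∪ ⋃ i ∈ J, α i
  have hJcount : J.Countable := Set.countable_iUnion hJc
  have hβJ : ∀ γ : Br × Kx, γ.1 ∈ A → β γ ⊆ J := by
    intro γ hγ
    have : ∃ n, γ.1 ∈ A0 ∪ ⋃ i ∈ Js n, α i := by
      rcases hγ with h | h
      · exact ⟨0, Or.inl h⟩
      · rw [Set.mem_iUnion₂] at h
        obtain ⟨i, hi, hiγ⟩ := h
        rw [Set.mem_iUnion] at hi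
        obtain ⟨n, hn⟩ := hi
        exact ⟨n, Or.inr (Set.mem_iUnion₂.2 ⟨i, hn, hiγ⟩)⟩
    obtain ⟨n, hn⟩ := this
    intro i hi
    refine Set.mem_iUnion.2 ⟨n + 1, ?_⟩
    rw [hJs]
    exact Or.inl (Or.inr (Set.mem_iUnion₂.2 ⟨γ, hn, hi⟩))
  refine ⟨J, A, Set.subset_union_left, countable_A0.union (Set.Countable.biUnion hJcount
    (fun i _ => hα1 i)), ?_, ?_⟩
  · apply le_antisymm
    · apply Submodule.topologicalClosure_minimal _ _ (Submodule.isClosed_topologicalClosure _)
      rw [Submodule.span_le]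
      rintro _ ⟨γ, hγ, rfl⟩
      exact Submodule.topologicalClosure_mono (Submodule.span_mono
        (Set.image_mono (hβJ γ hγ))) (hβ2 γ)
    · apply Submodule.topologicalClosure_minimal _ _ (Submodule.isClosed_topologicalClosure _)
      rw [Submodule.span_le]
      rintro _ ⟨i, hi, rfl⟩
      have h1 : α i ⊆ A := by
        intro σ hσ
        exact Or.inr (Set.mem_biUnion hi hσ)
      exact XC_mono h1 (hα2 i)
  · intro x hx r hr
    -- approximate
    obtain ⟨q, hq1, hq2⟩ := exists_between hr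
    set δ : ℝ := min ((q - r) / 2) ((c * ‖x‖ - q) / (2 * c)) with hδ
    have hδ0 : 0 < δ := lt_min (by linarith) (div_pos (by linarith) (by linarith))
    change x ∈ closure ((Submodule.span ℝ (e '' J) : Submodule ℝ X) : Set X) at hx
    rw [Metric.mem_closure_iff] at hx
    obtain ⟨y, hy, hxy⟩ := hx (δ / 2) (by linarith)
    have hyn : ∃ n, y ∈ Submodule.span ℝ (e '' Js n) := by
      have h1 : e '' J = ⋃ n, e '' Js n := Set.image_iUnion
      have h2 : y ∈ Submodule.span ℝ (⋃ n, e '' Js n) := by rw [← h1]; exact hy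
      rw [Submodule.span_iUnion] at h2
      have hdir : Directed (· ≤ ·) (fun n => Submodule.span ℝ (e '' Js n)) :=
        Monotone.directed_le (fun m n hmn => Submodule.span_mono (Set.image_mono (hmono hmn)))
      exact (Submodule.mem_iSup_of_directed _ hdir).1 h2
    obtain ⟨n, hn⟩ := hyn
    have hyc : y ∈ closure (Dn (Js n)) := hD2 (Js n) (hJc n) hn
    rw [Metric.mem_closure_iff] at hyc
    obtain ⟨z, hz, hyz⟩ := hyc (δ / 2) (by linarith)
    have hxz : ‖x - z‖ < δ := by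
      rw [← dist_eq_norm]
      calc dist x z ≤ dist x y + dist y z := dist_triangle _ _ _
        _ < δ / 2 + δ / 2 := add_lt_add hxy hyz
        _ = δ := by ring
    have hz1 : ‖x‖ - δ < ‖z‖ := by
      have := norm_sub_norm_le x z
      linarith
    have hδ2 : δ ≤ (c * ‖x‖ - q) / (2 * c) := min_le_right _ _
    have hδ1 : δ ≤ (q - r) / 2 := min_le_left _ _
    have hqz : q < c * ‖z‖ := by
      rw [le_div_iff₀ (by linarith)] at hδ2
      nlinarith
    obtain ⟨s, hs1, hs2⟩ := exists_rat_btwn (show (q + r) / 2 < q by linarith)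
    obtain ⟨φ, hφ1, hφ2, hφ3⟩ := hg2 z s (hs2.trans hqz)
    refine ⟨φ, ?_, hφ2, ?_⟩
    · intro i hi
      by_contra hcon
      apply hi
      refine Set.mem_iUnion.2 ⟨n + 1, ?_⟩
      rw [hJs]
      exact Or.inr (Set.mem_iUnion₂.2 ⟨z, hz, Set.mem_iUnion.2 ⟨s, hφ1 hcon⟩⟩)
    · have h1 : |φ z| - |φ x| ≤ δ := by
        calc |φ z| - |φ x| ≤ |φ z - φ x| := abs_sub_abs_le_abs_sub _ _
          _ = ‖φ (z - x)‖ := by rw [map_sub]; rfl
          _ ≤ ‖φ‖ * ‖z - x‖ := φ.le_opNorm _
          _ ≤ 1 * ‖z - x‖ := mul_le_mul_of_nonneg_right hφ2 (norm_nonneg _)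
          _ ≤ δ := by rw [one_mul, norm_sub_rev]; exact hxz.le
      linarith

/-- A countably norming total system yields a projection onto `XC A` with `A` countable. -/
theorem exists_proj (hdense : (Submodule.span ℝ (Set.range e)).topologicalClosure = ⊤)
    (hnorm : ∀ x : X, ∀ r : ℝ, r < c * ‖x‖ →
      ∃ φ : X →L[ℝ] ℝ, {i | φ (e i) ≠ 0}.Countable ∧ ‖φ‖ ≤ 1 ∧ r < |φ x|) (hc : 0 < c) :
    ∃ A : Set Br, A0 ⊆ A ∧ A.Countable ∧ ∃ P : X →L[ℝ] X,
      (∀ x ∈ XC A, P x = x) ∧ ∀ x, P x ∈ XC A := by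
  classical
  obtain ⟨J, A, hA0, hA, hXA, hJ⟩ := exists_closed_pair e c hdense hnorm hc
  refine ⟨A, hA0, hA, ?_⟩
  let L : (I →₀ ℝ) →ₗ[ℝ] X := Finsupp.linearCombination ℝ e
  let LJ : (I →₀ ℝ) →ₗ[ℝ] X := L.comp
    ((Finsupp.supported ℝ ℝ J).subtype.comp (Finsupp.restrictDom ℝ ℝ J))
  have hL : ∀ a, L a = ∑ i ∈ a.support, a i • e i := fun a => Finsupp.linearCombination_apply ℝ a
  have hLJ : ∀ a, LJ a = ∑ i ∈ (a.filter (· ∈ J)).support, (a.filter (· ∈ J)) i • e i := by
    intro a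
    simp only [LJ, LinearMap.comp_apply, Submodule.subtype_apply, Finsupp.restrictDom_apply]
    exact hL _
  have hmem : ∀ a, LJ a ∈ Submodule.span ℝ (e '' J) := by
    intro a
    rw [hLJ]
    apply Submodule.sum_mem
    intro i hi
    apply Submodule.smul_mem
    apply Submodule.subset_span
    refine ⟨i, ?_, rfl⟩
    rw [Finsupp.support_filter, Finset.mem_filter] at hi
    exact hi.2
  have hφ : ∀ (φ : X →L[ℝ] ℝ), (∀ i, i ∉ J → φ (e i) = 0) → ∀ a, φ (L a) = φ (LJ a) := by
    intro φ hφ a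
    rw [hL, hLJ, map_sum, map_sum, Finsupp.support_filter, Finset.sum_filter]
    apply Finset.sum_congr rfl
    intro i _
    by_cases h : i ∈ J
    · rw [if_pos h, Finsupp.filter_apply_pos _ _ h]
    · rw [if_neg h, map_smul, hφ i h, smul_zero]
  have hbound : ∀ a, ‖LJ a‖ ≤ (1 / c) * ‖L a‖ := by
    intro a
    by_contra hcon
    rw [not_le] at hcon
    have h1 : ‖L a‖ < c * ‖LJ a‖ := by
      rw [one_div, inv_mul_eq_div, div_lt_iff₀ hc] at hcon
      linarith
    obtain ⟨φ, h2, h3, h4⟩ := hJ (LJ a) (Submodule.le_topologicalClosure _ (hmem a)) _ h1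
    rw [← hφ φ h2 a] at h4
    have h5 := φ.le_opNorm (L a)
    rw [Real.norm_eq_abs] at h5
    have h6 : ‖φ‖ * ‖L a‖ ≤ 1 * ‖L a‖ := mul_le_mul_of_nonneg_right h3 (norm_nonneg _)
    linarith
  have hrange : DenseRange L := by
    have h1 : Set.range L = ((Submodule.span ℝ (Set.range e) : Submodule ℝ X) : Set X) := by
      rw [← Finsupp.range_linearCombination]
      rfl
    intro x
    rw [h1]
    have : x ∈ (Submodule.span ℝ (Set.range e)).topologicalClosure := by
      rw [hdense]; exact Submodule.mem_top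
    exact this
  have hbd : ∃ C, ∀ x, ‖LJ x‖ ≤ C * ‖L x‖ := ⟨1 / c, hbound⟩
  let P : X →L[ℝ] X := LJ.extendOfNorm L
  have hP : ∀ a, P (L a) = LJ a := fun a => LinearMap.extendOfNorm_eq hrange hbd a
  refine ⟨P, ?_, ?_⟩
  · rw [hXA]
    have hcl : IsClosed {x : X | P x = x} := isClosed_eq P.continuous continuous_id
    have hsub : ((Submodule.span ℝ (e '' J) : Submodule ℝ X) : Set X) ⊆ {x : X | P x = x} := by
      intro y hy
      refine Submodule.span_induction ?_ ?_ ?_ ?_ hy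
      · rintro _ ⟨i, hi, rfl⟩
        have h1 : L (Finsupp.single i 1) = e i := by simp [L]
        have h2 : LJ (Finsupp.single i 1) = e i := by
          simp only [LJ, LinearMap.comp_apply, Submodule.subtype_apply, Finsupp.restrictDom_apply]
          rw [Finsupp.filter_single_of_pos _ hi]
          exact h1
        change P (e i) = e i
        rw [← h1, hP, h2, h1]
      · simp
      · intro x y _ _ hx hy
        simp only [Set.mem_ofPred_eq] at *
        rw [map_add, hx, hy]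
      · intro a x _ hx
        simp only [Set.mem_ofPred_eq] at *
        rw [map_smul, hx]
    intro x hx
    exact closure_minimal hsub hcl hx
  · intro x
    rw [hXA]
    have hcl : IsClosed {x : X | P x ∈ (Submodule.span ℝ (e '' J)).topologicalClosure} :=
      (Submodule.isClosed_topologicalClosure _).preimage P.continuous
    have hsub : Set.range L ⊆ {x : X | P x ∈ (Submodule.span ℝ (e '' J)).topologicalClosure} := by
      rintro _ ⟨a, rfl⟩
      rw [Set.mem_ofPred_eq, hP]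
      exact Submodule.le_topologicalClosure _ (hmem a)
    exact closure_minimal hsub hcl (hrange x)

end closing

end Pool.Agent.Lib.Pe04c55
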