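import Pool.Agent.Lib.Pe04c55.Main

/-!
# The identity of the separable subspace `XC A0` has no extension with separable range
-/

set_option autoImplicit false
open Filter Topology Set
open scoped ENNReal

namespace Pool.Agent.Lib.Pe04c55

/-- No operator on `X` with values in `XC A`, `A` countable, is the identity on `XC A0`. -/
theorem not_ext {A : Set Br} (hA : A.Countable) (P : X →L[ℝ] X)
    (hP1 : ∀ x ∈ XC A0, P x = x) (hP2 : ∀ x, P x ∈ XC A) : False := by
  classical
  obtain ⟨σ, hσ⟩ : ∃ σ : Br, σ ∉ A := by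
    by_contra hcon
    push Not at hcon
    have h1 : (Set.univ : Set Br).Countable := hA.mono (fun σ _ => hcon σ)
    have h2 : Cardinal.mk Br ≤ Cardinal.aleph0 := by
      rw [← Cardinal.mk_univ]
      exact Cardinal.le_aleph0_iff_set_countable.2 h1
    have h3 : Cardinal.mk Br = Cardinal.continuum := by simp
    rw [h3] at h2
    exact absurd h2 (not_le.2 Cardinal.aleph0_lt_continuum)
  obtain ⟨n₀, hn₀⟩ := hump hσ P hP2 (1 / 4) (by norm_num)
  obtain ⟨n, hn, hk⟩ := exists_kap_large (2 * ‖P‖ + 1) n₀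
  have h2n : (0:ℝ) < 2 ^ n := by positivity
  -- the key inequality for each `g`
  have hkey : ∀ g : Fin n → Bool, |∑ θ, S (cm g θ) * Ev σ n θ (P (bvec σ n (fun θ => sgn (cm g θ))))|
      ≤ 2 ^ n * ‖P‖ + (kap n + 2 ^ n) * (1 / 4) := by
    intro g
    set x := P (bvec σ n (fun θ => sgn (cm g θ))) with hx
    have hxn : ‖x‖ ≤ ‖P‖ := by
      calc ‖x‖ ≤ ‖P‖ * ‖bvec σ n (fun θ => sgn (cm g θ))‖ := P.le_opNorm _
        _ ≤ ‖P‖ * 1 := mul_le_mul_of_nonneg_left
            (norm_bvec_le σ n _ (fun θ => abs_sgn_le _)) (norm_nonneg _)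
        _ = ‖P‖ := mul_one _
    -- difference array
    let c : (Fin n → Bool) → ℝ := fun θ => S (cm g θ) - 2 ^ n * (if θ = g then 1 else 0)
    have hcmom : ∀ i, mom c i = 0 := by
      intro i
      have e1 : ∑ θ : Fin n → Bool, sg (θ i) * S (cm g θ) = 2 ^ n * sg (g i) := by
        have e2 : ∀ θ : Fin n → Bool, sg (θ i) * S (cm g θ)
            = ∑ k, sg (g k) * (sg (θ i) * sg (θ k)) := by
          intro θ
          unfold S
          rw [Finset.mul_sum]
          apply Finset.sum_congr rfl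
          intro k _
          rw [sg_cm]; ring
        rw [Finset.sum_congr rfl (fun θ _ => e2 θ), Finset.sum_comm]
        have e3 : ∀ k, ∑ θ : Fin n → Bool, sg (g k) * (sg (θ i) * sg (θ k))
            = if i = k then sg (g k) * 2 ^ n else 0 := by
          intro k
          rw [← Finset.mul_sum, sum_sg_mul]
          split_ifs <;> simp
        rw [Finset.sum_congr rfl (fun k _ => e3 k)]
        rw [Finset.sum_ite_eq Finset.univ i]
        simp [mul_comm]
      unfold mom
      simp only [c, mul_sub]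
      rw [Finset.sum_sub_distrib, e1]
      simp only [mul_ite, mul_one, mul_zero]
      rw [Finset.sum_ite_eq' Finset.univ g]
      simp [mul_comm]
    have hcmass : ∑ θ, |c θ| ≤ kap n + 2 ^ n := by
      calc ∑ θ, |c θ| ≤ ∑ θ : Fin n → Bool, (|S (cm g θ)| + 2 ^ n * (if θ = g then 1 else 0)) := by
            apply Finset.sum_le_sum
            intro θ _
            apply (abs_sub _ _).trans
            apply add_le_add le_rfl
            split_ifs
            · rw [abs_of_nonneg (by positivity)]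
            · simp
        _ = kap n + 2 ^ n := by
            rw [Finset.sum_add_distrib, sum_cm g (fun θ => |S θ|), ← Finset.mul_sum,
              Finset.sum_ite_eq' Finset.univ g]
            simp [kap]
    have hMpos : 0 < kap n + 2 ^ n := by have := kap_nonneg n; linarith
    have hcsmall : |∑ θ, c θ * Ev σ n θ x| ≤ (kap n + 2 ^ n) * (1 / 4) := by
      let u : (Fin n → Bool) → ℝ := fun θ => (kap n + 2 ^ n)⁻¹ * c θ
      have hu1 : ∑ θ, |u θ| ≤ 1 := by
        simp only [u, abs_mul]
        rw [← Finset.mul_sum, abs_of_pos (inv_pos.2 hMpos), inv_mul_le_iff₀ hMpos, mul_one]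
        exact hcmass
      have hu0 : InB0 σ n (blk σ n u) := by
        refine ⟨blk_inB σ n u hu1, ?_, ?_⟩
        · intro τ m i
          by_cases hm : m = n
          · subst hm
            by_cases h : Agr σ m τ
            · have e1 : blk σ m u τ m = u := funext (fun θ => blk_same_of σ m u h θ)
              rw [e1]
              change mom (fun θ => (kap m + 2 ^ m)⁻¹ * c θ) i = 0
              rw [mom_smul, hcmom, mul_zero]
            · have e1 : blk σ m u τ m = fun _ => 0 := funext (fun θ => blk_of_not σ m u h m θ)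
              rw [e1, mom_zero]
          · have e1 : blk σ n u τ m = fun _ => 0 := funext (fun θ => blk_ne σ n u τ hm θ)
            rw [e1, mom_zero]
        · intro τ hτ m θ
          exact blk_of_not σ n u hτ m θ
      have h1 := hn₀ n hn (fun θ => sgn (cm g θ)) (fun θ => abs_sgn_le _) _ hu0
      rw [← hx, fB_blk] at h1
      have h2 : ∑ θ, u θ * Ev σ n θ x = (kap n + 2 ^ n)⁻¹ * ∑ θ, c θ * Ev σ n θ x := by
        rw [Finset.mul_sum]
        exact Finset.sum_congr rfl (fun θ _ => by simp only [u]; ring)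
      rw [h2, abs_mul, abs_of_pos (inv_pos.2 hMpos), inv_mul_le_iff₀ hMpos] at h1
      exact h1
    have hsplit : ∑ θ, S (cm g θ) * Ev σ n θ x = 2 ^ n * Ev σ n g x + ∑ θ, c θ * Ev σ n θ x := by
      simp only [c, sub_mul]
      rw [Finset.sum_sub_distrib]
      have : ∑ θ : Fin n → Bool, 2 ^ n * (if θ = g then (1:ℝ) else 0) * Ev σ n θ x
          = 2 ^ n * Ev σ n g x := by
        simp only [mul_ite, mul_one, mul_zero, ite_mul, zero_mul]
        rw [Finset.sum_ite_eq' Finset.univ g]
        simp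
      rw [this]; ring
    rw [hsplit]
    calc |2 ^ n * Ev σ n g x + ∑ θ, c θ * Ev σ n θ x|
        ≤ |2 ^ n * Ev σ n g x| + |∑ θ, c θ * Ev σ n θ x| := abs_add_le _ _
      _ ≤ 2 ^ n * ‖P‖ + (kap n + 2 ^ n) * (1 / 4) := by
          apply add_le_add _ hcsmall
          rw [abs_mul, abs_of_pos h2n]
          exact mul_le_mul_of_nonneg_left ((abs_Ev_le σ n g x).trans hxn) h2n.le
  -- the averaged identity
  have hρ : ∀ i : Fin n, P (∑ θ : Fin n → Bool, sg (θ i) • d (σ, ⟨n, θ⟩))
      = ∑ θ : Fin n → Bool, sg (θ i) • d (σ, ⟨n, θ⟩) := by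
    intro i
    apply hP1
    obtain ⟨τ, hτ, hj⟩ := exists_A0 σ n
    rw [rad_eq n i σ τ hj]
    apply Submodule.sum_mem
    intro θ _
    exact Submodule.smul_mem _ _ (d_mem_XC hτ)
  set Q : (Fin n → Bool) → (Fin n → Bool) → ℝ := fun θ θ' => Ev σ n θ (P (d (σ, ⟨n, θ'⟩))) with hQ
  have hQsum : ∀ i : Fin n, ∀ θ : Fin n → Bool, ∑ θ', sg (θ' i) * Q θ θ' = sg (θ i) := by
    intro i θ
    have e1 : ∑ θ', sg (θ' i) * Q θ θ' = Ev σ n θ (P (∑ θ' : Fin n → Bool,
        sg (θ' i) • d (σ, ⟨n, θ'⟩))) := by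
      rw [map_sum, map_sum]
      apply Finset.sum_congr rfl
      intro θ' _
      rw [map_smul, map_smul, smul_eq_mul]
    rw [e1, hρ, map_sum]
    have e2 : ∀ θ' : Fin n → Bool, Ev σ n θ (sg (θ' i) • d (σ, ⟨n, θ'⟩))
        = if θ' = θ then sg (θ' i) else 0 := by
      intro θ'
      rw [map_smul, Ev_d_same, smul_eq_mul]
      split_ifs <;> simp
    rw [Finset.sum_congr rfl (fun θ' _ => e2 θ'), Finset.sum_ite_eq' Finset.univ θ]
    simp
  have hc : ∀ (i : Fin n) (θ' : Fin n → Bool), ∑ g : Fin n → Bool, sg (g i) * sgn (cm g θ')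
      = sg (θ' i) * ∑ h : Fin n → Bool, sg (h i) * sgn h := by
    intro i θ'
    rw [← sum_cm θ' (fun g => sg (g i) * sgn (cm g θ')), Finset.mul_sum]
    apply Finset.sum_congr rfl
    intro h _
    rw [sg_cm, cm_comm (cm θ' h) θ', cm_cm]; ring
  have hid : ∑ g : Fin n → Bool, ∑ θ, S (cm g θ) *
      Ev σ n θ (P (bvec σ n (fun θ => sgn (cm g θ)))) = 2 ^ n * kap n := by
    have e1 : ∀ g : Fin n → Bool, ∑ θ, S (cm g θ) *
        Ev σ n θ (P (bvec σ n (fun θ => sgn (cm g θ))))
        = ∑ i, ∑ θ, ∑ θ', sg (θ i) * Q θ θ' * (sg (g i) * sgn (cm g θ')) := by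
      intro g
      rw [Finset.sum_comm]
      apply Finset.sum_congr rfl
      intro θ _
      have e2 : Ev σ n θ (P (bvec σ n (fun θ => sgn (cm g θ)))) = ∑ θ', sgn (cm g θ') * Q θ θ' := by
        unfold bvec
        rw [map_sum, map_sum]
        apply Finset.sum_congr rfl
        intro θ' _
        rw [map_smul, map_smul, smul_eq_mul]
      rw [e2]
      unfold S
      rw [Finset.sum_mul]
      apply Finset.sum_congr rfl
      intro i _
      rw [sg_cm, Finset.mul_sum]
      apply Finset.sum_congr rfl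
      intro θ' _
      ring
    rw [Finset.sum_congr rfl (fun g _ => e1 g), Finset.sum_comm]
    have e3 : ∀ i : Fin n, ∑ g : Fin n → Bool, ∑ θ, ∑ θ',
        sg (θ i) * Q θ θ' * (sg (g i) * sgn (cm g θ'))
        = 2 ^ n * ∑ h : Fin n → Bool, sg (h i) * sgn h := by
      intro i
      rw [Finset.sum_comm]
      have e4 : ∀ θ : Fin n → Bool, ∑ g : Fin n → Bool, ∑ θ',
          sg (θ i) * Q θ θ' * (sg (g i) * sgn (cm g θ'))
          = ∑ h : Fin n → Bool, sg (h i) * sgn h := by
        intro θ
        rw [Finset.sum_comm]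
        have e5 : ∀ θ' : Fin n → Bool, ∑ g : Fin n → Bool,
            sg (θ i) * Q θ θ' * (sg (g i) * sgn (cm g θ'))
            = (sg (θ i) * ∑ h : Fin n → Bool, sg (h i) * sgn h) * (sg (θ' i) * Q θ θ') := by
          intro θ'
          rw [← Finset.mul_sum, hc]; ring
        rw [Finset.sum_congr rfl (fun θ' _ => e5 θ'), ← Finset.mul_sum, hQsum]
        rw [mul_comm (sg (θ i)) _, mul_assoc, sg_sq, mul_one]
      rw [Finset.sum_congr rfl (fun θ _ => e4 θ), Finset.sum_const]
      simp
    rw [Finset.sum_congr rfl (fun i _ => e3 i), ← Finset.mul_sum, Finset.sum_comm]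
    congr 1
    unfold kap
    apply Finset.sum_congr rfl
    intro h _
    rw [← Finset.sum_mul, ← S_mul_sgn]
    rfl
  have hle : 2 ^ n * kap n ≤ ∑ _g : Fin n → Bool, (2 ^ n * ‖P‖ + (kap n + 2 ^ n) * (1 / 4)) := by
    rw [← hid]
    exact Finset.sum_le_sum (fun g _ => (le_abs_self _).trans (hkey g))
  rw [Finset.sum_const] at hle
  simp only [Finset.card_univ, Fintype.card_pi, Fintype.card_bool, Finset.prod_const,
    Fintype.card_fin, nsmul_eq_mul, Nat.cast_pow, Nat.cast_ofNat] at hle
  have h3 := le_of_mul_le_mul_left hle h2n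
  have h4 : 0 ≤ ‖P‖ := norm_nonneg _
  nlinarith

/-- `XC A` is separable for countable `A`. -/
lemma isSeparable_XC {A : Set Br} (hA : A.Countable) :
    TopologicalSpace.IsSeparable (XC A : Set X) := by
  have h2 : {γ : Br × Kx | γ.1 ∈ A}.Countable := by
    have : {γ : Br × Kx | γ.1 ∈ A} ⊆ A ×ˢ (Set.univ : Set Kx) := fun γ hγ => ⟨hγ, Set.mem_univ _⟩
    exact (hA.prod Set.countable_univ).mono this
  have h3 : TopologicalSpace.IsSeparable
      ((Submodule.span ℝ (d '' {γ : Br × Kx | γ.1 ∈ A}) : Submodule ℝ X) : Set X) :=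
    ((h2.image d).isSeparable).span
  exact h3.closure

/-- A separable set lies in some `XC A` with `A` countable. -/
lemma exists_XC_of_isSeparable {S : Set X} (hS : TopologicalSpace.IsSeparable S) :
    ∃ A : Set Br, A.Countable ∧ S ⊆ XC A := by
  obtain ⟨D, hD, hSD⟩ := hS
  choose C hC1 hC2 using exists_countable_XC
  refine ⟨⋃ x ∈ D, C x, Set.Countable.biUnion hD (fun x _ => hC1 x), hSD.trans ?_⟩
  apply closure_minimal
  · intro x hx
    exact XC_mono (Set.subset_biUnion_of_mem (u := fun x => C x) hx) (hC2 x)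
  · exact Submodule.isClosed_topologicalClosure _

/-- No bounded operator on `X` with separable range is the identity on `XC A0`. -/
theorem not_separable_ext (P : X →L[ℝ] X) (hP1 : ∀ x ∈ XC A0, P x = x)
    (hP2 : TopologicalSpace.IsSeparable (Set.range P)) : False := by
  obtain ⟨A, hA, hsub⟩ := exists_XC_of_isSeparable hP2
  exact not_ext hA P hP1 (fun x => hsub ⟨x, rfl⟩)

end Pool.Agent.Lib.Pe04c55
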