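import Pool.Agent.Lib.Pe04c55.Space

/-!
# The continuous section

`sec a` is the homogenised product measure on the cube with first moments `a`.
-/

set_option autoImplicit false
open Filter Topology Set
open scoped ENNReal

namespace Pool.Agent.Lib.Pe04c55

/-- The homogenised product measure with first moments `a`. -/
noncomputable def sec {n : ℕ} (a : Fin n → ℝ) (θ : Fin n → Bool) : ℝ :=
  ‖a‖ * ∏ i, ((1 + sg (θ i) * (a i / ‖a‖)) / 2)

lemma ratio_le {n : ℕ} (a : Fin n → ℝ) (i : Fin n) : |a i / ‖a‖| ≤ 1 := by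
  rw [abs_div, abs_norm]
  apply div_le_one_of_le₀ _ (norm_nonneg a)
  exact norm_le_pi_norm a i

lemma factor_bounds {n : ℕ} (a : Fin n → ℝ) (i : Fin n) (b : Bool) :
    0 ≤ (1 + sg b * (a i / ‖a‖)) / 2 ∧ (1 + sg b * (a i / ‖a‖)) / 2 ≤ 1 := by
  have h1 : |sg b * (a i / ‖a‖)| ≤ 1 := by
    rw [abs_mul, abs_sg, one_mul]; exact ratio_le a i
  have h2 := abs_le.1 h1
  constructor <;> linarith

lemma sec_nonneg {n : ℕ} (a : Fin n → ℝ) (θ : Fin n → Bool) : 0 ≤ sec a θ :=
  mul_nonneg (norm_nonneg _) (Finset.prod_nonneg (fun i _ => (factor_bounds a i _).1))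

lemma sec_le {n : ℕ} (a : Fin n → ℝ) (θ : Fin n → Bool) : sec a θ ≤ ‖a‖ := by
  unfold sec
  calc ‖a‖ * ∏ i, ((1 + sg (θ i) * (a i / ‖a‖)) / 2) ≤ ‖a‖ * 1 := by
        apply mul_le_mul_of_nonneg_left _ (norm_nonneg _)
        exact Finset.prod_le_one (fun i _ => (factor_bounds a i _).1)
          (fun i _ => (factor_bounds a i _).2)
    _ = ‖a‖ := mul_one _

lemma sum_prod_cube {n : ℕ} (f : Fin n → Bool → ℝ) :
    ∑ θ : Fin n → Bool, ∏ i, f i (θ i) = ∏ i, (f i true + f i false) := by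
  have h := Finset.prod_univ_sum (fun _ : Fin n => (Finset.univ : Finset Bool)) f
  rw [Fintype.piFinset_univ] at h
  rw [← h]
  apply Finset.prod_congr rfl
  intro i _
  simp

lemma sum_sec {n : ℕ} (a : Fin n → ℝ) : ∑ θ : Fin n → Bool, sec a θ = ‖a‖ := by
  unfold sec
  rw [← Finset.mul_sum]
  rw [sum_prod_cube (fun i b => (1 + sg b * (a i / ‖a‖)) / 2)]
  have : ∀ i : Fin n, ((1 + sg true * (a i / ‖a‖)) / 2 + (1 + sg false * (a i / ‖a‖)) / 2) = 1 := by
    intro i; simp [sg]; ring
  rw [Finset.prod_congr rfl (fun i _ => this i)]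
  simp

lemma mom_sec {n : ℕ} (a : Fin n → ℝ) (j : Fin n) : mom (sec a) j = a j := by
  unfold mom sec
  have h1 : ∀ θ : Fin n → Bool, sg (θ j) * (‖a‖ * ∏ i, ((1 + sg (θ i) * (a i / ‖a‖)) / 2))
      = ‖a‖ * ∏ i, ((if i = j then sg (θ i) else 1) * ((1 + sg (θ i) * (a i / ‖a‖)) / 2)) := by
    intro θ
    rw [Finset.prod_mul_distrib, Finset.prod_ite_eq' Finset.univ j (fun i => sg (θ i))]
    simp only [Finset.mem_univ, if_true]
    ring
  rw [Finset.sum_congr rfl (fun θ _ => h1 θ), ← Finset.mul_sum]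
  rw [sum_prod_cube (fun i b => (if i = j then sg b else 1) * ((1 + sg b * (a i / ‖a‖)) / 2))]
  have h2 : ∀ i : Fin n, ((if i = j then sg true else 1) * ((1 + sg true * (a i / ‖a‖)) / 2)
      + (if i = j then sg false else 1) * ((1 + sg false * (a i / ‖a‖)) / 2))
      = if i = j then a i / ‖a‖ else 1 := by
    intro i
    by_cases h : i = j
    · simp [h, sg]; ring
    · simp [h, sg]; ring
  rw [Finset.prod_congr rfl (fun i _ => h2 i), Finset.prod_ite_eq' Finset.univ j
    (fun i => a i / ‖a‖)]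
  simp only [Finset.mem_univ, if_true]
  by_cases ha : ‖a‖ = 0
  · have : a = 0 := norm_eq_zero.1 ha
    subst this
    simp
  · field_simp

lemma continuous_sec {n : ℕ} (θ : Fin n → Bool) : Continuous (fun a : Fin n → ℝ => sec a θ) := by
  rw [continuous_iff_continuousAt]
  intro a
  by_cases ha : a = 0
  · subst ha
    have h0 : sec (0 : Fin n → ℝ) θ = 0 := by simp [sec]
    change Tendsto _ _ (𝓝 (sec (0 : Fin n → ℝ) θ))
    rw [h0]
    apply squeeze_zero (fun a => sec_nonneg a θ) (fun a => sec_le a θ)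
    have : Tendsto (fun a : Fin n → ℝ => ‖a‖) (𝓝 0) (𝓝 ‖(0 : Fin n → ℝ)‖) :=
      continuous_norm.tendsto 0
    rwa [norm_zero] at this
  · have hn : ‖a‖ ≠ 0 := norm_ne_zero_iff.2 ha
    unfold sec
    apply ContinuousAt.mul continuous_norm.continuousAt
    apply tendsto_finsetProd
    intro i _
    have h1 : ContinuousAt (fun a : Fin n → ℝ => a i / ‖a‖) a :=
      (continuous_apply i).continuousAt.div continuous_norm.continuousAt hn
    exact ((continuousAt_const.add (continuousAt_const.mul h1)).div_const 2)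

lemma norm_mom_le {n : ℕ} (u : (Fin n → Bool) → ℝ) : ‖mom u‖ ≤ ∑ θ, |u θ| := by
  rw [pi_norm_le_iff_of_nonneg (Finset.sum_nonneg (fun _ _ => abs_nonneg _))]
  intro i
  rw [Real.norm_eq_abs]
  unfold mom
  apply (Finset.abs_sum_le_sum_abs _ _).trans
  apply Finset.sum_le_sum
  intro θ _
  rw [abs_mul, abs_sg, one_mul]

/-- Replace the data off a set of branches by the section. -/
noncomputable def repl (C : Set Br) (b : Arr) : Arr := by
  classical
  exact fun σ n θ => if σ ∈ C then b σ n θ else sec (mom (b σ n)) θ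

lemma repl_of_mem {C : Set Br} (b : Arr) {σ : Br} (h : σ ∈ C) (n : ℕ) (θ : Fin n → Bool) :
    repl C b σ n θ = b σ n θ := by
  unfold repl; simp [h]

lemma repl_of_not_mem {C : Set Br} (b : Arr) {σ : Br} (h : σ ∉ C) (n : ℕ) (θ : Fin n → Bool) :
    repl C b σ n θ = sec (mom (b σ n)) θ := by
  unfold repl; simp [h]

lemma mom_repl (C : Set Br) (b : Arr) (σ : Br) (n : ℕ) (i : Fin n) :
    mom (repl C b σ n) i = mom (b σ n) i := by
  by_cases h : σ ∈ C
  · have : repl C b σ n = b σ n := funext (fun θ => repl_of_mem b h n θ)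
    rw [this]
  · have : repl C b σ n = sec (mom (b σ n)) := funext (fun θ => repl_of_not_mem b h n θ)
    rw [this, mom_sec]

lemma repl_inB (C : Set Br) {b : Arr} (hb : InB b) : InB (repl C b) := by
  constructor
  · intro σ N
    by_cases h : σ ∈ C
    · have : ∀ n, repl C b σ n = b σ n := fun n => funext (fun θ => repl_of_mem b h n θ)
      simp only [this]
      exact hb.mass σ N
    · refine le_trans ?_ (hb.mass σ N)
      apply Finset.sum_le_sum
      intro n _
      have : repl C b σ n = sec (mom (b σ n)) := funext (fun θ => repl_of_not_mem b h n θ)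
      rw [this]
      calc ∑ θ, |sec (mom (b σ n)) θ| = ∑ θ, sec (mom (b σ n)) θ :=
            Finset.sum_congr rfl (fun θ _ => abs_of_nonneg (sec_nonneg _ _))
        _ = ‖mom (b σ n)‖ := sum_sec _
        _ ≤ ∑ θ, |b σ n θ| := norm_mom_le _
  · intro n i σ τ h
    rw [mom_repl, mom_repl]
    exact hb.compat n i σ τ h

end Pool.Agent.Lib.Pe04c55
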