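import Mathlib

/-!
# The space

Branches are points of `ℕ → Bool`. For each branch `σ` and each level `n` we have generators
`d (σ, n, θ)`, `θ` a vertex of the cube `{±1}ⁿ`. The dual ball is the set `BB` of all arrays `b`
with `∑ n θ, |b σ n θ| ≤ 1` for each branch `σ`, and such that the first moments
`∑ θ, θ i * b σ n θ` depend only on the first `n` bits of `σ`.
-/

set_option autoImplicit false
open Filter Topology Set
open scoped ENNReal

namespace Pool.Agent.Lib.Pe04c55

/-- Branches of the dyadic tree. -/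
abbrev Br : Type := ℕ → Bool

/-- Vertices of all finite cubes. -/
abbrev Kx : Type := Σ n : ℕ, (Fin n → Bool)

/-- Coefficient arrays. -/
abbrev Arr : Type := Br → (n : ℕ) → (Fin n → Bool) → ℝ

/-- The sign of a bit. -/
def sg (b : Bool) : ℝ := if b then 1 else -1

lemma sg_sq (b : Bool) : sg b * sg b = 1 := by cases b <;> simp [sg]

lemma abs_sg (b : Bool) : |sg b| = 1 := by cases b <;> simp [sg]

/-- First moments. -/
noncomputable def mom {n : ℕ} (u : (Fin n → Bool) → ℝ) (i : Fin n) : ℝ := ∑ θ, sg (θ i) * u θ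

/-- The constraints defining the dual ball. -/
structure InB (b : Arr) : Prop where
  mass : ∀ σ N, ∑ n ∈ Finset.range N, ∑ θ : Fin n → Bool, |b σ n θ| ≤ 1
  compat : ∀ (n : ℕ) (i : Fin n) (σ τ : Br), (∀ j < n, σ j = τ j) →
    mom (b σ n) i = mom (b τ n) i

/-- The dual ball. -/
abbrev BB : Type := {b : Arr // InB b}

/-- The ambient space of bounded functions on the dual ball. -/
abbrev Amb : Type := lp (fun _ : BB => ℝ) ∞

lemma InB.abs_le {b : Arr} (hb : InB b) (σ : Br) (n : ℕ) (θ : Fin n → Bool) : |b σ n θ| ≤ 1 := by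
  have h1 := hb.mass σ (n + 1)
  have h2 : |b σ n θ| ≤ ∑ θ : Fin n → Bool, |b σ n θ| :=
    Finset.single_le_sum (f := fun θ => |b σ n θ|) (fun _ _ => abs_nonneg _) (Finset.mem_univ θ)
  have h3 : ∑ θ : Fin n → Bool, |b σ n θ| ≤ ∑ m ∈ Finset.range (n + 1),
      ∑ θ : Fin m → Bool, |b σ m θ| :=
    Finset.single_le_sum (f := fun m => ∑ θ : Fin m → Bool, |b σ m θ|)
      (fun _ _ => Finset.sum_nonneg (fun _ _ => abs_nonneg _))
      (Finset.mem_range.2 (Nat.lt_succ_self n))
  linarith

/-- Generators in the ambient space. -/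
noncomputable def dA (γ : Br × Kx) : Amb :=
  ⟨fun b => b.1 γ.1 γ.2.1 γ.2.2, by
    apply memℓp_infty
    refine ⟨1, ?_⟩
    rintro _ ⟨b, rfl⟩
    exact b.2.abs_le _ _ _⟩

lemma dA_apply (γ : Br × Kx) (b : BB) : dA γ b = b.1 γ.1 γ.2.1 γ.2.2 := rfl

/-- The closed span of the generators. -/
noncomputable def XS : Submodule ℝ Amb := (Submodule.span ℝ (Set.range dA)).topologicalClosure

instance : CompleteSpace XS := by
  unfold XS
  infer_instance

/-- The Banach space. -/
def X : Type := XS

noncomputable instance instNACGX : NormedAddCommGroup X := inferInstanceAs (NormedAddCommGroup XS)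

noncomputable instance instNSX : NormedSpace ℝ X := inferInstanceAs (NormedSpace ℝ XS)

instance : CompleteSpace X := inferInstanceAs (CompleteSpace XS)

/-- The inclusion. -/
noncomputable def inc : X →ₗᵢ[ℝ] Amb := XS.subtypeₗᵢ

/-- Generators. -/
noncomputable def d (γ : Br × Kx) : X :=
  (⟨dA γ, (Submodule.span ℝ (Set.range dA)).le_topologicalClosure
    (Submodule.subset_span ⟨γ, rfl⟩)⟩ : XS)

lemma inc_d (γ : Br × Kx) : inc (d γ) = dA γ := rfl

/-- Evaluation at a point of the dual ball. -/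
noncomputable def fB (b : BB) : X →L[ℝ] ℝ :=
  LinearMap.mkContinuous
    { toFun := fun x => inc x b
      map_add' := fun x y => by simp
      map_smul' := fun c x => by simp } 1 (by
    intro x
    rw [one_mul, ← inc.norm_map x]
    exact lp.norm_apply_le_norm (by simp) (inc x) b)

lemma fB_apply (b : BB) (x : X) : fB b x = inc x b := rfl

lemma fB_d (b : BB) (γ : Br × Kx) : fB b (d γ) = b.1 γ.1 γ.2.1 γ.2.2 := rfl

lemma abs_fB_le (b : BB) (x : X) : |fB b x| ≤ ‖x‖ := by
  rw [← inc.norm_map x]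
  exact lp.norm_apply_le_norm (by simp) (inc x) b

lemma norm_le_of_fB (x : X) (C : ℝ) (hC : 0 ≤ C) (h : ∀ b, |fB b x| ≤ C) : ‖x‖ ≤ C := by
  rw [← inc.norm_map x]
  exact lp.norm_le_of_forall_le hC (fun b => h b)

lemma eq_of_fB {x y : X} (h : ∀ b, fB b x = fB b y) : x = y := by
  apply inc.injective
  apply lp.ext
  funext b
  exact h b

/-- The span of generators is dense. -/
lemma dense_d : (Submodule.span ℝ (Set.range d)).topologicalClosure = ⊤ := by
  rw [eq_top_iff]
  rintro x -
  change x ∈ closure ((Submodule.span ℝ (Set.range d) : Submodule ℝ X) : Set X)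
  rw [inc.isometry.isEmbedding.toIsInducing.closure_eq_preimage_closure_image]
  have h1 : (inc '' ((Submodule.span ℝ (Set.range d) : Submodule ℝ X) : Set X))
      = ((Submodule.span ℝ (Set.range dA) : Submodule ℝ Amb) : Set Amb) := by
    have h2 : (Submodule.map inc.toLinearMap (Submodule.span ℝ (Set.range d)))
        = Submodule.span ℝ (Set.range dA) := by
      rw [Submodule.map_span]
      congr 1
      rw [← Set.range_comp]
      rfl
    rw [← h2]
    rfl
  rw [h1]
  exact (show XS from x).2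

/-- Continuous linear functionals agreeing on the generators are equal. -/
lemma ext_d {f g : X →L[ℝ] ℝ} (h : ∀ γ, f (d γ) = g (d γ)) (x : X) : f x = g x := by
  have hx : x ∈ (Submodule.span ℝ (Set.range d)).topologicalClosure := by
    rw [dense_d]; exact Submodule.mem_top
  have hcl : IsClosed {x : X | f x = g x} := isClosed_eq f.continuous g.continuous
  have hsub : ((Submodule.span ℝ (Set.range d) : Submodule ℝ X) : Set X) ⊆ {x : X | f x = g x} := by
    intro y hy
    refine Submodule.span_induction ?_ ?_ ?_ ?_ hy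
    · rintro _ ⟨γ, rfl⟩; exact h γ
    · simp
    · intro x y _ _ hx hy
      simp only [Set.mem_ofPred_eq] at *
      rw [map_add, map_add, hx, hy]
    · intro a x _ hx
      simp only [Set.mem_ofPred_eq] at *
      rw [map_smul, map_smul, hx]
  exact closure_minimal hsub hcl hx

/-- Norm of a block combination on one branch. -/
lemma norm_block_le (σ : Br) (N : ℕ) (f : (n : ℕ) → (Fin n → Bool) → ℝ)
    (hf : ∀ n θ, |f n θ| ≤ 1) :
    ‖∑ n ∈ Finset.range N, ∑ θ : Fin n → Bool, f n θ • d (σ, ⟨n, θ⟩)‖ ≤ 1 := by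
  apply norm_le_of_fB _ _ zero_le_one
  intro b
  rw [map_sum]
  calc |∑ n ∈ Finset.range N, fB b (∑ θ : Fin n → Bool, f n θ • d (σ, ⟨n, θ⟩))|
      ≤ ∑ n ∈ Finset.range N, |fB b (∑ θ : Fin n → Bool, f n θ • d (σ, ⟨n, θ⟩))| :=
        Finset.abs_sum_le_sum_abs _ _
    _ ≤ ∑ n ∈ Finset.range N, ∑ θ : Fin n → Bool, |b.1 σ n θ| := by
        apply Finset.sum_le_sum
        intro n _
        rw [map_sum]
        apply (Finset.abs_sum_le_sum_abs _ _).trans
        apply Finset.sum_le_sum
        intro θ _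
        rw [map_smul, smul_eq_mul, abs_mul, fB_d]
        calc |f n θ| * |b.1 σ n θ| ≤ 1 * |b.1 σ n θ| :=
              mul_le_mul_of_nonneg_right (hf n θ) (abs_nonneg _)
          _ = |b.1 σ n θ| := one_mul _
    _ ≤ 1 := b.2.mass σ N

/-- The identification of Rademacher vectors on different branches. -/
lemma rad_eq (n : ℕ) (i : Fin n) (σ τ : Br) (h : ∀ j < n, σ j = τ j) :
    ∑ θ : Fin n → Bool, sg (θ i) • d (σ, ⟨n, θ⟩) = ∑ θ : Fin n → Bool, sg (θ i) • d (τ, ⟨n, θ⟩) := by
  apply eq_of_fB
  intro b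
  rw [map_sum, map_sum]
  have := b.2.compat n i σ τ h
  unfold mom at this
  simpa [fB_d] using this

/-- Array of a functional. -/
noncomputable def arr (φ : X →L[ℝ] ℝ) : Arr := fun σ n θ => φ (d (σ, ⟨n, θ⟩))

lemma arr_inB {φ : X →L[ℝ] ℝ} (hφ : ∀ x, |φ x| ≤ ‖x‖) : InB (arr φ) := by
  constructor
  · intro σ N
    let f : (n : ℕ) → (Fin n → Bool) → ℝ := fun n θ => if 0 ≤ φ (d (σ, ⟨n, θ⟩)) then 1 else -1
    have hf : ∀ n θ, |f n θ| ≤ 1 := by
      intro n θ
      simp only [f]
      split_ifs <;> simp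
    have h1 := norm_block_le σ N f hf
    have h2 : φ (∑ n ∈ Finset.range N, ∑ θ : Fin n → Bool, f n θ • d (σ, ⟨n, θ⟩))
        = ∑ n ∈ Finset.range N, ∑ θ : Fin n → Bool, |arr φ σ n θ| := by
      rw [map_sum]
      apply Finset.sum_congr rfl
      intro n _
      rw [map_sum]
      apply Finset.sum_congr rfl
      intro θ _
      rw [map_smul, smul_eq_mul]
      simp only [f, arr]
      split_ifs with h
      · rw [abs_of_nonneg h, one_mul]
      · rw [abs_of_neg (not_le.1 h)]; ring
    rw [← h2]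
    exact (le_abs_self _).trans ((hφ _).trans h1)
  · intro n i σ τ h
    have h1 := congrArg φ (rad_eq n i σ τ h)
    rw [map_sum, map_sum] at h1
    unfold mom arr
    simpa using h1

/-- Closed span of the generators over a set of branches. -/
noncomputable def XC (C : Set Br) : Submodule ℝ X :=
  (Submodule.span ℝ (d '' {γ | γ.1 ∈ C})).topologicalClosure

lemma d_mem_XC {C : Set Br} {γ : Br × Kx} (h : γ.1 ∈ C) : d γ ∈ XC C :=
  (Submodule.span ℝ (d '' {γ | γ.1 ∈ C})).le_topologicalClosure
    (Submodule.subset_span ⟨γ, h, rfl⟩)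

lemma XC_mono {C C' : Set Br} (h : C ⊆ C') : XC C ≤ XC C' :=
  Submodule.topologicalClosure_mono (Submodule.span_mono (Set.image_mono (fun _ hγ => h hγ)))

/-- Countable support of points in a closed span. -/
lemma exists_countable_closure_span {E : Type} [NormedAddCommGroup E] [NormedSpace ℝ E]
    {ι : Type} (v : ι → E) (x : E) (hx : x ∈ (Submodule.span ℝ (Set.range v)).topologicalClosure) :
    ∃ J : Set ι, J.Countable ∧ x ∈ (Submodule.span ℝ (v '' J)).topologicalClosure := by
  change x ∈ closure ((Submodule.span ℝ (Set.range v) : Submodule ℝ E) : Set E) at hx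
  rw [mem_closure_iff_seq_limit] at hx
  obtain ⟨y, hy, hlim⟩ := hx
  have hfin : ∀ k, ∃ J : Set ι, J.Countable ∧ y k ∈ Submodule.span ℝ (v '' J) := by
    intro k
    have h1 : y k ∈ Submodule.span ℝ (Set.range v) := hy k
    rw [Finsupp.mem_span_range_iff_exists_finsupp] at h1
    obtain ⟨c, hc⟩ := h1
    refine ⟨c.support, c.support.countable_toSet, ?_⟩
    rw [← hc]
    apply Submodule.sum_mem
    intro i hi
    exact Submodule.smul_mem _ _ (Submodule.subset_span ⟨i, hi, rfl⟩)
  choose J hJ1 hJ2 using hfin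
  refine ⟨⋃ k, J k, Set.countable_iUnion hJ1, ?_⟩
  change x ∈ closure ((Submodule.span ℝ (v '' ⋃ k, J k) : Submodule ℝ E) : Set E)
  rw [mem_closure_iff_seq_limit]
  refine ⟨y, fun k => ?_, hlim⟩
  exact Submodule.span_mono (Set.image_mono (Set.subset_iUnion J k)) (hJ2 k)

lemma exists_countable_XC (x : X) : ∃ C : Set Br, C.Countable ∧ x ∈ XC C := by
  obtain ⟨J, hJ, hx⟩ := exists_countable_closure_span d x (by rw [dense_d]; exact Submodule.mem_top)
  refine ⟨Prod.fst '' J, hJ.image _, ?_⟩
  have h1 : d '' J ⊆ d '' {γ | γ.1 ∈ Prod.fst '' J} := by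
    rintro _ ⟨γ, hγ, rfl⟩
    exact ⟨γ, ⟨γ, hγ, rfl⟩, rfl⟩
  exact Submodule.topologicalClosure_mono (Submodule.span_mono h1) hx

end Pool.Agent.Lib.Pe04c55
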