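import Pool.Agent.Lib.Pe04c55.Section

/-!
# The dual ball is a Valdivia compact
-/

set_option autoImplicit false
open Filter Topology Set
open scoped ENNReal

namespace Pool.Agent.Lib.Pe04c55

/-- Extension of a finite bit string by `false`. -/
def ext0 (k : Kx) : Br := fun j => if h : j < k.1 then k.2 ⟨j, h⟩ else false

/-- A countable dense set of branches. -/
def A0 : Set Br := Set.range ext0

lemma countable_A0 : A0.Countable := Set.countable_range _

lemma exists_A0 (σ : Br) (n : ℕ) : ∃ τ ∈ A0, ∀ j < n, σ j = τ j := by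
  refine ⟨ext0 ⟨n, fun i => σ i⟩, ⟨_, rfl⟩, ?_⟩
  intro j hj
  simp [ext0, hj]

/-- The dual ball with the weak-star topology. -/
abbrev Ball : Type := {φ : WeakDual ℝ X // ∀ x : X, |φ x| ≤ ‖x‖}

instance : CompactSpace Ball := by
  have h : IsCompact {φ : WeakDual ℝ X | ∀ x : X, |φ x| ≤ ‖x‖} := by
    have h1 := WeakDual.isCompact_closedBall (𝕜 := ℝ) (E := X) 0 1
    convert h1 using 1
    ext φ
    simp only [Set.mem_ofPred_eq, Set.mem_preimage, mem_closedBall_zero_iff]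
    constructor
    · intro hφ
      apply ContinuousLinearMap.opNorm_le_bound _ zero_le_one
      intro x
      rw [one_mul]
      exact hφ x
    · intro hφ x
      have h2 := (WeakDual.toStrongDual φ).le_opNorm x
      calc |φ x| = ‖(WeakDual.toStrongDual φ) x‖ := rfl
        _ ≤ ‖WeakDual.toStrongDual φ‖ * ‖x‖ := h2
        _ ≤ 1 * ‖x‖ := mul_le_mul_of_nonneg_right hφ (norm_nonneg _)
        _ = ‖x‖ := one_mul _
  exact isCompact_iff_compactSpace.1 h

/-- The array of a point of the dual ball. -/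
noncomputable def arrW (φ : Ball) : Arr := fun σ n θ => φ.1 (d (σ, ⟨n, θ⟩))

lemma arrW_inB (φ : Ball) : InB (arrW φ) :=
  arr_inB (φ := WeakDual.toStrongDual φ.1) φ.2

lemma continuous_arrW (σ : Br) (n : ℕ) (θ : Fin n → Bool) :
    Continuous (fun φ : Ball => arrW φ σ n θ) :=
  (WeakDual.eval_continuous _).comp continuous_subtype_val

lemma continuous_mom_arrW (σ : Br) (n : ℕ) : Continuous (fun φ : Ball => mom (arrW φ σ n)) := by
  apply continuous_pi
  intro i
  unfold mom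
  apply continuous_finsetSum
  intro θ _
  exact continuous_const.mul (continuous_arrW σ n θ)

/-- The embedding. -/
noncomputable def hh (φ : Ball) (γ : Br × Kx) : ℝ := by
  classical
  exact if γ.1 ∈ A0 then arrW φ γ.1 γ.2.1 γ.2.2 else
    (arrW φ γ.1 γ.2.1 γ.2.2 - sec (mom (arrW φ γ.1 γ.2.1)) γ.2.2) / 2

lemma hh_of_mem (φ : Ball) {γ : Br × Kx} (h : γ.1 ∈ A0) : hh φ γ = arrW φ γ.1 γ.2.1 γ.2.2 := by
  unfold hh; simp [h]

lemma hh_of_not_mem (φ : Ball) {γ : Br × Kx} (h : γ.1 ∉ A0) :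
    hh φ γ = (arrW φ γ.1 γ.2.1 γ.2.2 - sec (mom (arrW φ γ.1 γ.2.1)) γ.2.2) / 2 := by
  unfold hh; simp [h]

lemma continuous_hh : Continuous hh := by
  apply continuous_pi
  intro γ
  by_cases h : γ.1 ∈ A0
  · have : (fun φ => hh φ γ) = fun φ => arrW φ γ.1 γ.2.1 γ.2.2 := funext (fun φ => hh_of_mem φ h)
    rw [this]
    exact continuous_arrW _ _ _
  · have : (fun φ => hh φ γ) = fun φ =>
        (arrW φ γ.1 γ.2.1 γ.2.2 - sec (mom (arrW φ γ.1 γ.2.1)) γ.2.2) / 2 :=
      funext (fun φ => hh_of_not_mem φ h)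
    rw [this]
    exact ((continuous_arrW _ _ _).sub
      ((continuous_sec γ.2.2).comp (continuous_mom_arrW γ.1 γ.2.1))).div_const 2

lemma ball_ext {φ ψ : Ball} (h : ∀ γ : Br × Kx, arrW φ γ.1 γ.2.1 γ.2.2 = arrW ψ γ.1 γ.2.1 γ.2.2) :
    φ = ψ := by
  apply Subtype.ext
  apply DFunLike.ext
  intro x
  exact ext_d (f := WeakDual.toStrongDual φ.1) (g := WeakDual.toStrongDual ψ.1) h x

lemma injective_hh : Function.Injective hh := by
  intro φ ψ h
  apply ball_ext
  intro γ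
  have h0 : ∀ γ : Br × Kx, γ.1 ∈ A0 → arrW φ γ.1 γ.2.1 γ.2.2 = arrW ψ γ.1 γ.2.1 γ.2.2 := by
    intro γ hγ
    rw [← hh_of_mem φ hγ, ← hh_of_mem ψ hγ, h]
  by_cases hγ : γ.1 ∈ A0
  · exact h0 γ hγ
  · have hm : mom (arrW φ γ.1 γ.2.1) = mom (arrW ψ γ.1 γ.2.1) := by
      funext i
      obtain ⟨τ, hτ, hj⟩ := exists_A0 γ.1 γ.2.1
      rw [(arrW_inB φ).compat γ.2.1 i γ.1 τ hj, (arrW_inB ψ).compat γ.2.1 i γ.1 τ hj]
      congr 1
      funext θ
      exact h0 (τ, ⟨γ.2.1, θ⟩) hτ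
    have h1 : hh φ γ = hh ψ γ := by rw [h]
    rw [hh_of_not_mem φ hγ, hh_of_not_mem ψ hγ, hm] at h1
    linarith

lemma abs_hh_le (φ : Ball) (γ : Br × Kx) : |hh φ γ| ≤ 1 := by
  have h1 := (arrW_inB φ).abs_le γ.1 γ.2.1 γ.2.2
  by_cases h : γ.1 ∈ A0
  · rw [hh_of_mem φ h]; exact h1
  · rw [hh_of_not_mem φ h]
    have h2 : |sec (mom (arrW φ γ.1 γ.2.1)) γ.2.2| ≤ 1 := by
      rw [← repl_of_not_mem (C := ∅) (arrW φ) (Set.notMem_empty γ.1)]
      exact (repl_inB ∅ (arrW_inB φ)).abs_le _ _ _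
    rw [abs_div, abs_two]
    have h3 := abs_sub (arrW φ γ.1 γ.2.1 γ.2.2) (sec (mom (arrW φ γ.1 γ.2.1)) γ.2.2)
    rw [div_le_one (by norm_num)]
    linarith

/-- Functionals agreeing on the generators of `XC C` agree on `XC C`. -/
lemma eq_on_XC {C : Set Br} {f g : X →L[ℝ] ℝ} (h : ∀ γ : Br × Kx, γ.1 ∈ C → f (d γ) = g (d γ))
    {x : X} (hx : x ∈ XC C) : f x = g x := by
  have hcl : IsClosed {x : X | f x = g x} := isClosed_eq f.continuous g.continuous
  have hsub : ((Submodule.span ℝ (d '' {γ | γ.1 ∈ C}) : Submodule ℝ X) : Set X)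
      ⊆ {x : X | f x = g x} := by
    intro y hy
    refine Submodule.span_induction ?_ ?_ ?_ ?_ hy
    · rintro _ ⟨γ, hγ, rfl⟩; exact h γ hγ
    · simp
    · intro x y _ _ hx hy
      simp only [Set.mem_ofPred_eq] at *
      rw [map_add, map_add, hx, hy]
    · intro a x _ hx
      simp only [Set.mem_ofPred_eq] at *
      rw [map_smul, map_smul, hx]
  exact closure_minimal hsub hcl hx

/-- The point of the dual ball given by an array. -/
noncomputable def pt (b : BB) : Ball := ⟨StrongDual.toWeakDual (fB b), fun x => abs_fB_le b x⟩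

lemma arrW_pt (b : BB) (σ : Br) (n : ℕ) (θ : Fin n → Bool) : arrW (pt b) σ n θ = b.1 σ n θ := rfl

lemma pt_apply (b : BB) (x : X) : (pt b).1 x = fB b x := rfl

lemma dense_sigma : Dense {φ : Ball | (Function.support (hh φ)).Countable} := by
  classical
  intro φ
  choose Cx hCx1 hCx2 using exists_countable_XC
  let C : Finset X → Set Br := fun F => A0 ∪ ⋃ x ∈ F, Cx x
  have hC : ∀ F, (C F).Countable := fun F =>
    countable_A0.union (Set.Countable.biUnion F.countable_toSet (fun x _ => hCx1 x))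
  let ψ : Finset X → Ball := fun F => pt ⟨repl (C F) (arrW φ), repl_inB (C F) (arrW_inB φ)⟩
  have hψ : ∀ F x, x ∈ F → (ψ F).1 x = φ.1 x := by
    intro F x hx
    have hxC : x ∈ XC (C F) := by
      apply XC_mono _ (hCx2 x)
      intro σ hσ
      exact Or.inr (Set.mem_biUnion hx hσ)
    apply eq_on_XC (f := fB ⟨repl (C F) (arrW φ), repl_inB (C F) (arrW_inB φ)⟩)
      (g := WeakDual.toStrongDual φ.1) _ hxC
    intro γ hγ
    rw [fB_d]
    exact repl_of_mem (arrW φ) hγ γ.2.1 γ.2.2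
  have hlim : Tendsto ψ atTop (𝓝 φ) := by
    rw [tendsto_subtype_rng]
    rw [tendsto_iff_forall_eval_tendsto_topDualPairing]
    intro x
    apply tendsto_const_nhds.congr'
    filter_upwards [eventually_ge_atTop ({x} : Finset X)] with F hF
    exact (hψ F x (hF (Finset.mem_singleton_self x))).symm
  apply mem_closure_of_tendsto hlim
  filter_upwards with F
  have hsub : Function.support (hh (ψ F)) ⊆ (C F) ×ˢ (Set.univ : Set Kx) := by
    intro γ hγ
    by_contra hcon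
    have h1 : γ.1 ∉ C F := fun h => hcon ⟨h, Set.mem_univ _⟩
    have h2 : γ.1 ∉ A0 := fun h => h1 (Or.inl h)
    apply hγ
    rw [hh_of_not_mem _ h2]
    have h3 : arrW (ψ F) γ.1 γ.2.1 γ.2.2 = sec (mom (arrW φ γ.1 γ.2.1)) γ.2.2 :=
      repl_of_not_mem (arrW φ) h1 γ.2.1 γ.2.2
    have h4 : mom (arrW (ψ F) γ.1 γ.2.1) = mom (arrW φ γ.1 γ.2.1) :=
      funext (fun i => mom_repl (C F) (arrW φ) γ.1 γ.2.1 i)
    rw [h3, h4, sub_self, zero_div]
  exact ((hC F).prod Set.countable_univ).mono hsub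

/-- The dual ball of `X` is a Valdivia compact. -/
theorem valdivia : ∃ (Γ : Type) (h : {φ : WeakDual ℝ X // ∀ x : X, |φ x| ≤ ‖x‖} → (Γ → ℝ)),
    Topology.IsEmbedding h ∧ (∀ b γ, |h b γ| ≤ 1) ∧
    Dense {b : {φ : WeakDual ℝ X // ∀ x : X, |φ x| ≤ ‖x‖} | (Function.support (h b)).Countable} :=
  ⟨Br × Kx, hh, (continuous_hh.isClosedEmbedding injective_hh).isEmbedding, abs_hh_le, dense_sigma⟩

end Pool.Agent.Lib.Pe04c55
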